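import Pool.Agent.W684.FM.Ambient
import Pool.Agent.Helper292.SP.Lib

/-!
# Adding many Cohen reals: finite partial functions from `J` to a countable set `K`
-/

set_option autoImplicit false

namespace Pool.Agent.W631.CG

open Cardinal Set Pool.Agent.Helper669.Forcing Pool.Agent.W684.FM

/-- The conditions: finite partial functions from `J` to `K`, given by a finite domain `dom` and a
function `val` whose values outside of the domain are irrelevant. -/
structure Fn (J K : Type) where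
  /-- the domain -/
  dom : Finset J
  /-- the values -/
  val : J → K

variable {J K : Type}

/-- `q ≤ p` if `q` extends `p`. -/
instance : Preorder (Fn J K) where
  le q p := p.dom ⊆ q.dom ∧ ∀ i ∈ p.dom, q.val i = p.val i
  le_refl _ := ⟨Finset.Subset.refl _, fun _ _ => rfl⟩
  le_trans _ _ _ h h' := ⟨h'.1.trans h.1, fun i hi => (h.2 i (h'.1 hi)).trans (h'.2 i hi)⟩

theorem Fn.le_iff {p q : Fn J K} : q ≤ p ↔ p.dom ⊆ q.dom ∧ ∀ i ∈ p.dom, q.val i = p.val i :=
  Iff.rfl

namespace Fn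

/-- Agreement of two conditions. -/
def Agree (p q : Fn J K) : Prop := ∀ i ∈ p.dom, i ∈ q.dom → p.val i = q.val i

theorem agree_of_le {p q r : Fn J K} (h : r ≤ p) (h' : r ≤ q) : Agree p q :=
  fun i hi hi' => (h.2 i hi).symm.trans (h'.2 i hi')

open Classical in
theorem exists_lb {p q : Fn J K} (h : Agree p q) : ∃ r, r ≤ p ∧ r ≤ q := by
  refine ⟨⟨p.dom ∪ q.dom, fun i => if i ∈ p.dom then p.val i else q.val i⟩,
    ⟨Finset.subset_union_left, fun i hi => ?_⟩, ⟨Finset.subset_union_right, fun i hi => ?_⟩⟩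
  · simp [hi]
  · by_cases h' : i ∈ p.dom
    · simp [h', h i h' hi]
    · simp [h']

/-- The delta system lemma for conditions. -/
theorem delta [Countable K] {E : Type} (T : Set E) (hT : ¬ T.Countable) (f : E → Fn J K) :
    ∃ T' ⊆ T, ¬ T'.Countable ∧ ∃ R : Set J, (∀ e ∈ T', R ⊆ (f e).dom) ∧
      (∀ e ∈ T', ∀ e' ∈ T', e ≠ e' → ((f e).dom ∩ (f e').dom : Set J) = R) ∧
      ∀ e ∈ T', ∀ e' ∈ T', ∀ i ∈ R, (f e).val i = (f e').val i := by
  have cnt : ∀ (S : Set E), S.Countable ↔ #S ≤ ℵ₀ := fun S =>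
    Cardinal.le_aleph0_iff_set_countable.symm
  obtain ⟨T1, R, hT1, hT1c, hR⟩ := Pool.Agent.Helper292.SP.delta_sys (σ := ℵ₀) (χ := ℵ₀)
    le_rfl le_rfl (by
      intro τ hτ
      obtain ⟨n, rfl⟩ := Cardinal.lt_aleph0.mp hτ
      exact Cardinal.power_nat_le le_rfl) T (by rwa [← cnt]) (fun e => ((f e).dom : Set J))
    (fun e => (Finset.finite_toSet _).lt_aleph0)
  have two : ∀ (T2 : Set E), (¬ #T2 ≤ ℵ₀) → ∃ e ∈ T2, ∃ e' ∈ T2, e ≠ e' := by
    intro T2 hT2
    have h1 : 1 < #T2 := Cardinal.one_lt_aleph0.trans (not_le.mp hT2)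
    obtain ⟨⟨e, he⟩, ⟨e', he'⟩, hne⟩ := Cardinal.one_lt_iff_nontrivial.mp h1
    exact ⟨e, he, e', he', fun h => hne (Subtype.ext h)⟩
  have hRfin : R.Finite := by
    obtain ⟨e, he, e', he', hne⟩ := two T1 hT1c
    rw [← hR e he e' he' hne]
    exact (Finset.finite_toSet _).subset inter_subset_left
  have hRsub : ∀ e ∈ T1, R ⊆ (f e).dom := by
    intro e he
    obtain ⟨a, ha, b, hb, hne⟩ := two T1 hT1c
    by_cases h : e = a
    · subst h; rw [← hR e he b hb hne]; exact inter_subset_left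
    · rw [← hR e he a ha h]; exact inter_subset_left
  have : Finite R := hRfin
  have : Countable (R → K) := inferInstance
  obtain ⟨T2, z, hT2, hT2c, hz⟩ := Pool.Agent.Helper292.SP.pigeon (χ := ℵ₀) le_rfl T1 hT1c
    (fun e => (fun i : R => (f e).val i.1 : R → K)) Cardinal.mk_le_aleph0
  refine ⟨T2, hT2.trans hT1, by rwa [cnt], R, fun e he => hRsub e (hT2 he), fun e he e' he' hne =>
    hR e (hT2 he) e' (hT2 he') hne, fun e he e' he' i hi => ?_⟩
  have h1 := congrFun ((hz e he).trans (hz e' he').symm) ⟨i, hi⟩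
  exact h1

/-- The countable chain condition. -/
theorem pccc [Countable K] : PCCC (Fn J K) := by
  intro A hA
  by_contra hcon
  obtain ⟨T', hT', hc, R, hR1, hR2, hR3⟩ := delta A hcon (fun p => p)
  have h1 : 1 < #T' := Cardinal.one_lt_aleph0.trans
    (not_le.mp (by rwa [Cardinal.le_aleph0_iff_set_countable]))
  obtain ⟨⟨e, he⟩, ⟨e', he'⟩, hne⟩ := Cardinal.one_lt_iff_nontrivial.mp h1
  have hne' : e ≠ e' := fun h => hne (Subtype.ext h)
  refine hA e (hT' he) e' (hT' he') hne' (exists_lb fun i hi hi' => ?_)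
  have hi2 : i ∈ R := by
    rw [← hR2 e he e' he' hne']
    exact ⟨hi, hi'⟩
  exact hR3 e he e' he' i hi2

open Classical in
/-- Restriction of a condition. -/
noncomputable def res (p : Fn J K) (A : Set J) : Fn J K := ⟨p.dom.filter (· ∈ A), p.val⟩

theorem mem_res_dom {p : Fn J K} {A : Set J} {i : J} : i ∈ (p.res A).dom ↔ i ∈ p.dom ∧ i ∈ A := by
  simp [res]

theorem res_val (p : Fn J K) (A : Set J) (i : J) : (p.res A).val i = p.val i := rfl

theorem le_res (p : Fn J K) (A : Set J) : p ≤ p.res A :=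
  ⟨fun _ hi => (mem_res_dom.1 hi).1, fun _ _ => rfl⟩

/-- Every name has a countable support. -/
theorem exists_support [Countable K] (N : Set (Fn J K)) :
    ∃ A : Set J, A.Countable ∧ ∀ q ∈ meets N, q.res A ∈ meets N := by
  obtain ⟨B, hB1, hB2, hB3⟩ := exists_predense (pccc (J := J) (K := K)) (fnot (meets N))
    (down_fnot _)
  refine ⟨⋃ b ∈ B, (b.dom : Set J), hB1.biUnion fun b _ => Finset.countable_toSet _, ?_⟩
  intro q hq
  apply meets_of_dense
  intro r hr
  by_cases h : ∃ s ≤ r, s ∈ meets N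
  · exact h
  · exfalso
    push Not at h
    obtain ⟨b, hb, s, hs1, hs2⟩ := hB3 r (fun s hs => h s hs)
    obtain ⟨t, ht1, ht2⟩ := exists_lb (p := b) (q := q) (by
      intro i hi hi'
      have h1 : i ∈ (q.res (⋃ b ∈ B, (b.dom : Set J))).dom :=
        mem_res_dom.2 ⟨hi', mem_iUnion₂.2 ⟨b, hb, hi⟩⟩
      have h2 := (hs1.trans hr).2 i h1
      rw [res_val] at h2
      rw [← h2]
      exact (hs2.2 i hi).symm)
    exact hB2 hb t ht1 (down_meets N q hq t ht2)

/-- A common support for few names. -/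
theorem exists_support_family [Countable K] {X : Type} (hX : #X ≤ ℵ₁) (N : X → Set (Fn J K)) :
    ∃ A : Set J, #A ≤ ℵ₁ ∧ ∀ x, ∀ q ∈ meets (N x), q.res A ∈ meets (N x) := by
  choose A hA1 hA2 using fun x => exists_support (N x)
  refine ⟨⋃ x, A x, ?_, fun x q hq => ?_⟩
  · refine (Cardinal.mk_iUnion_le_sum_mk).trans ?_
    refine (Cardinal.sum_le_sum _ (fun _ => ℵ₀) (fun x => ?_)).trans ?_
    · exact Cardinal.le_aleph0_iff_set_countable.2 (hA1 x)
    · rw [Cardinal.sum_const']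
      refine (mul_le_mul_left hX _).trans ?_
      rw [Cardinal.mul_aleph0_eq (Cardinal.aleph0_le_aleph 1)]
  · refine down_meets _ _ (hA2 x q hq) _ ⟨fun i hi => ?_, fun i hi => rfl⟩
    rw [mem_res_dom] at hi ⊢
    exact ⟨hi.1, mem_iUnion.2 ⟨x, hi.2⟩⟩

end Fn

end Pool.Agent.W631.CG
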