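import Pool.Agent.W631.CG.Defs

/-!
# For the trivial forcing notion the forcing versions are the original sentences
-/

set_option autoImplicit false

namespace Pool.Agent.W631.CG.Sanity

open Pool.Agent.Helper669.Forcing Pool.Agent.W684.FM Pool.Agent.W631.CG

abbrev o : Unit := ()

theorem meets_iff (N : Set Unit) : o ∈ meets N ↔ o ∈ N := by
  constructor
  · intro h
    obtain ⟨_, _, s, hs, _⟩ := h o le_rfl
    exact hs
  · exact fun h => meets_of_mem h

theorem fex_iff {ι : Sort*} (φ : ι → Set Unit) : o ∈ fex φ ↔ ∃ i, o ∈ φ i := by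
  rw [mem_fex]
  constructor
  · intro h
    obtain ⟨_, _, i, hi⟩ := h o le_rfl
    exact ⟨i, hi⟩
  · rintro ⟨i, hi⟩ q _
    exact ⟨o, le_rfl, i, hi⟩

theorem fimp_iff (φ ψ : Set Unit) : o ∈ fimp φ ψ ↔ (o ∈ φ → o ∈ ψ) := by
  rw [mem_fimp]
  constructor
  · intro h hφ
    obtain ⟨_, _, h'⟩ := h o le_rfl hφ
    exact h'
  · intro h q _ hq
    exact ⟨o, le_rfl, h hq⟩

theorem fnot_iff (φ : Set Unit) : o ∈ fnot φ ↔ ¬ o ∈ φ :=
  ⟨fun h => h o le_rfl, fun h _ _ => h⟩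

theorem fall_iff {ι : Sort*} (φ : ι → Set Unit) : o ∈ fall φ ↔ ∀ i, o ∈ φ i := Iff.rfl

theorem fand_iff (φ ψ : Set Unit) : o ∈ fand φ ψ ↔ (o ∈ φ ∧ o ∈ ψ) := Iff.rfl

theorem fground_iff (h : Prop) : o ∈ fground (P := Unit) h ↔ h := Iff.rfl

/-- names and predicates -/
def nm {X : Type} (U : X → Prop) : X → Set Unit := fun x => {_p | U x}

theorem ex_pred {X : Type} (Φ : (X → Set Unit) → Prop) (Ψ : (X → Prop) → Prop)
    (h : ∀ U : X → Set Unit, Φ U ↔ Ψ fun x => o ∈ U x) : (∃ U, Φ U) ↔ ∃ U, Ψ U := by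
  constructor
  · rintro ⟨U, hU⟩
    exact ⟨_, (h U).1 hU⟩
  · rintro ⟨U, hU⟩
    exact ⟨nm U, (h _).2 hU⟩

theorem ex_pred2 {X Y : Type} (Φ : (X → Y → Set Unit) → Prop) (Ψ : (X → Y → Prop) → Prop)
    (h : ∀ U : X → Y → Set Unit, Φ U ↔ Ψ fun x y => o ∈ U x y) : (∃ U, Φ U) ↔ ∃ U, Ψ U := by
  constructor
  · rintro ⟨U, hU⟩
    exact ⟨_, (h U).1 hU⟩
  · rintro ⟨U, hU⟩
    exact ⟨fun x => nm (U x), (h _).2 hU⟩

theorem all_pred {X : Type} (Φ : (X → Set Unit) → Prop) (Ψ : (X → Prop) → Prop)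
    (h : ∀ U : X → Set Unit, Φ U ↔ Ψ fun x => o ∈ U x) : (∀ U, Φ U) ↔ ∀ U, Ψ U :=
  ⟨fun H U => (h (nm U)).1 (H _), fun H U => (h U).2 (H _)⟩

variable {K K' : Type} [AddCommGroup K] [AddCommGroup K']

theorem isFn_iff {X Y : Type} (c : X → Y → Set Unit) : o ∈ IsFun c ↔ IsFn fun x n => o ∈ c x n := by
  simp only [IsFun, fand_iff, fall_iff, fex_iff, fimp_iff, meets_iff, fground_iff, IsFn]

theorem rho_iff (V : K → Set Unit) : o ∈ RhoNhdN V ↔ RhoNhd fun x => o ∈ V x := by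
  unfold RhoNhdN RhoNhd
  rw [fex_iff]
  apply ex_pred
  intro U
  simp only [IsSubgpN, CtblIndexN, fand_iff, fall_iff, fimp_iff, meets_iff, IsSubgp, CtblIndex]
  rw [fex_iff, ex_pred2 _ (fun c => IsFn c ∧ ∀ x y n, c x n ∧ c y n → o ∈ U (x - y))]
  intro c
  simp only [fand_iff, fall_iff, fimp_iff, meets_iff, isFn_iff]

theorem frak_iff (V : K → Set Unit) : o ∈ FrakNhdN V ↔ FrakNhd fun x => o ∈ V x := by
  unfold FrakNhdN FrakNhd
  rw [fex_iff]
  apply ex_pred2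
  intro W
  simp only [CtblCoverN, fand_iff, fall_iff, fimp_iff, meets_iff, CtblCover]
  refine and_congr Iff.rfl (forall_congr' fun n => and_congr Iff.rfl (and_congr Iff.rfl
    (and_congr Iff.rfl ?_)))
  rw [fex_iff]
  apply ex_pred2
  intro a
  simp only [fand_iff, fall_iff, fex_iff, meets_iff, isFn_iff]

theorem homeo_iff' {N : (K → Set Unit) → Set Unit} {N' : (K' → Set Unit) → Set Unit}
    {M : (K → Prop) → Prop} {M' : (K' → Prop) → Prop}
    (hN : ∀ V, o ∈ N V ↔ M fun x => o ∈ V x) (hN' : ∀ V, o ∈ N' V ↔ M' fun x => o ∈ V x) :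
    o ∈ (fex fun F : K → K' → Set Unit => IsHomeoN N N' F) ↔
      ∃ F : K → K' → Prop, IsHomeoR M M' F := by
  rw [fex_iff]
  apply ex_pred2
  intro F
  unfold IsHomeoN IsHomeoR
  simp only [fand_iff, isFn_iff, IsInj, IsOnto, fall_iff, fimp_iff, meets_iff, fground_iff, fex_iff]
  refine and_congr Iff.rfl (and_congr Iff.rfl (and_congr Iff.rfl (and_congr ?_ ?_)))
  · refine forall_congr' fun x => forall_congr' fun y => forall_congr' fun h => ?_
    apply all_pred _ (fun V => M' V → ∃ U : K → Prop, M U ∧ ∀ x' y', o ∈ F x' y' ∧ U (x' - x) →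
      V (y' - y))
    intro V
    rw [hN']
    refine forall_congr' fun h => ?_
    apply ex_pred
    intro U
    rw [hN]
  · refine forall_congr' fun x => forall_congr' fun y => forall_congr' fun h => ?_
    apply all_pred _ (fun U => M U → ∃ V : K' → Prop, M' V ∧ ∀ x' y', o ∈ F x' y' ∧ V (y' - y) →
      U (x' - x))
    intro U
    rw [hN]
    refine forall_congr' fun h => ?_
    apply ex_pred
    intro V
    rw [hN']

/-- the trivial forcing notion forces `RhoHomeo` iff it is true -/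
theorem rhoHomeo : o ∈ RhoHomeoN Unit ↔ RhoHomeo := homeo_iff' rho_iff rho_iff

/-- the trivial forcing notion forces `FrakHomeo` iff it is true -/
theorem frakHomeo : o ∈ FrakHomeoN Unit ↔ FrakHomeo := homeo_iff' frak_iff frak_iff

end Pool.Agent.W631.CG.Sanity
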