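import Pool.Agent.W631.CG.Defs
import Pool.Agent.H38R3.QFinal

/-!
# The ambient sentences are equivalent to the existence of homeomorphisms
-/

set_option autoImplicit false

namespace Pool.Agent.W631.CG

open Cardinal Set Filter Topology Pool.Agent.Helper669.Forcing Pool.Agent.W684.FM H38Q

theorem homeo_iff {K K' : Type} [AddCommGroup K] [AddCommGroup K'] {t : TopologicalSpace K}
    {t' : TopologicalSpace K'} {N : (K → Prop) → Prop} {N' : (K' → Prop) → Prop}
    (hN : ∀ (x : K) (V : Set K), V ∈ @nhds K t x ↔ N fun z => x + z ∈ V)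
    (hN' : ∀ (x : K') (V : Set K'), V ∈ @nhds K' t' x ↔ N' fun z => x + z ∈ V) :
    (∃ F : K → K' → Prop, IsHomeoR N N' F) ↔ Nonempty (@Homeomorph K K' t t') := by
  constructor
  · rintro ⟨F, ⟨h1, h2⟩, h3, h4, h5, h6⟩
    choose f hf using h1
    choose g hg using h4
    have hfy : ∀ x y, F x y → f x = y := fun x y h => h2 x _ _ ⟨hf x, h⟩
    have hgx : ∀ x y, F x y → g y = x := fun x y h => h3 _ _ y ⟨hg y, h⟩
    have hgf : ∀ x, g (f x) = x := fun x => hgx x _ (hf x)
    have hfg : ∀ y, f (g y) = y := fun y => hfy _ _ (hg y)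
    refine ⟨@Homeomorph.mk K K' t t' ⟨f, g, hgf, hfg⟩ ?_ ?_⟩
    · rw [continuous_iff_continuousAt]
      intro x V hV
      have h7 := (hN' _ _).1 hV
      obtain ⟨U, hU, hUV⟩ := h5 x (f x) (hf x) _ h7
      rw [Filter.mem_map]
      apply (hN x _).2
      have h8 : N fun z => x + z ∈ {w | U (w - x)} := by
        have : (fun z => x + z ∈ {w | U (w - x)}) = U := by
          funext z
          simp
        rwa [this]
      have h9 := (hN x _).2 h8
      apply (hN x _).1
      filter_upwards [h9] with w hw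
      have h10 := hUV w (f w) ⟨hf w, hw⟩
      simpa using h10
    · rw [continuous_iff_continuousAt]
      intro y V hV
      have h7 := (hN _ _).1 hV
      obtain ⟨U, hU, hUV⟩ := h6 (g y) y (hg y) _ h7
      rw [Filter.mem_map]
      have h8 : N' fun z => y + z ∈ {w | U (w - y)} := by
        have : (fun z => y + z ∈ {w | U (w - y)}) = U := by
          funext z
          simp
        rwa [this]
      have h9 := (hN' y _).2 h8
      filter_upwards [h9] with w hw
      have h10 := hUV (g w) w ⟨hg w, hw⟩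
      simpa using h10
  · rintro ⟨e⟩
    refine ⟨fun x y => e x = y, ⟨fun x => ⟨e x, rfl⟩, fun x y y' h => h.1.symm.trans h.2⟩,
      fun x x' y h => e.injective (h.1.trans h.2.symm), fun y => ⟨e.symm y, e.apply_symm_apply y⟩,
      ?_, ?_⟩
    · rintro x _ rfl V hV
      have h1 : {w | V (w - e x)} ∈ @nhds K' t' (e x) := by
        rw [hN']
        have : (fun z => e x + z ∈ {w | V (w - e x)}) = V := by
          funext z
          simp
        rwa [this]
      have h2 := e.continuous.continuousAt h1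
      rw [Filter.mem_map] at h2
      refine ⟨_, (hN x _).1 h2, ?_⟩
      rintro x' _ ⟨rfl, h3⟩
      simpa using h3
    · rintro x _ rfl U hU
      have h1 : {w | U (w - x)} ∈ @nhds K t x := by
        rw [hN]
        have : (fun z => x + z ∈ {w | U (w - x)}) = U := by
          funext z
          simp
        rwa [this]
      have h2 : {w | U (w - x)} ∈ @nhds K t (e.symm (e x)) := by
        rwa [e.symm_apply_apply]
      have h3 := e.symm.continuous.continuousAt h2
      rw [Filter.mem_map] at h3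
      refine ⟨_, (hN' (e x) _).1 h3, ?_⟩
      rintro x' _ ⟨rfl, h4⟩
      simpa using h4

section rho

variable {K : Type} [AddCommGroup K]

theorem mem_nhds_rho (x : K) (V : Set K) :
    V ∈ @nhds K (rho K) x ↔ RhoNhd fun z => x + z ∈ V := by
  let _ := rho K
  constructor
  · intro h
    obtain ⟨O, hOV, hO, hxO⟩ := mem_nhds_iff.1 h
    obtain ⟨S, hS, hSO⟩ := hO x hxO
    obtain ⟨c, hc⟩ := exists_injective_nat (K ⧸ S)
    refine ⟨fun z => z ∈ S, ⟨S.zero_mem, fun x y h => S.sub_mem h.1 h.2⟩,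
      ⟨fun z n => c (z : K ⧸ S) = n, ⟨fun z => ⟨_, rfl⟩, fun z n n' h => h.1.symm.trans h.2⟩,
        fun y z n h => ?_⟩, fun z hz => hOV (hSO z hz)⟩
    have h1 : ((z : K) : K ⧸ S) = (y : K ⧸ S) := hc (h.2.trans h.1.symm)
    rw [QuotientAddGroup.eq] at h1
    have h2 : y - z = -z + y := by abel
    show y - z ∈ S
    rw [h2]
    exact h1
  · rintro ⟨U, hU, ⟨c, hc, hcU⟩, hUV⟩
    let S : AddSubgroup K :=
      { carrier := {z | U z}
        zero_mem' := hU.1
        add_mem' := by
          intro a b ha hb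
          have h1 := hU.2 0 b ⟨hU.1, hb⟩
          have h2 := hU.2 a (0 - b) ⟨ha, h1⟩
          simpa using h2
        neg_mem' := by
          intro a ha
          have h1 := hU.2 0 a ⟨hU.1, ha⟩
          simpa using h1 }
    choose f hf using hc.1
    have hS : Countable (K ⧸ S) := by
      apply countable_of_code S f
      intro y z h
      have h1 : U (z - y) := hcU z y (f y) ⟨by rw [h]; exact hf z, hf y⟩
      have h2 : -y + z = z - y := by abel
      rw [h2]
      exact h1
    have hopen : IsOpen {w : K | w - x ∈ S} := by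
      intro w hw
      refine ⟨S, hS, fun y hy => ?_⟩
      have h1 : w + y - x = (w - x) + y := by abel
      show w + y - x ∈ S
      rw [h1]
      exact S.add_mem hw hy
    refine mem_nhds_iff.2 ⟨{w | w - x ∈ S}, fun w hw => ?_, hopen, ?_⟩
    · have h1 := hUV (w - x) hw
      simpa using h1
    · show x - x ∈ S
      rw [sub_self]
      exact S.zero_mem

end rho

theorem rhoHomeo_iff : RhoHomeo ↔ Nonempty (@Homeomorph G2 H3 (rho G2) (rho H3)) :=
  homeo_iff mem_nhds_rho mem_nhds_rho

section frak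

variable {K : Type} [AddCommGroup K]

theorem mem_nhds_frak_zero (V : Set K) :
    V ∈ @nhds K (frakG K) 0 ↔ FrakNhd fun z => z ∈ V := by
  constructor
  · intro h
    let _ := frakG K
    have hg : IsTopologicalAddGroup K := (isLeast_frakG K).1.1
    have half : ∀ U : {U : Set K // U ∈ 𝓝 (0 : K)}, ∃ U' : {U : Set K // U ∈ 𝓝 (0 : K)},
        (∀ x ∈ U'.1, -x ∈ U'.1) ∧ (∀ x ∈ U'.1, ∀ y ∈ U'.1, x + y ∈ U.1) := by
      rintro ⟨U, hU⟩
      obtain ⟨W, hW, hWU⟩ := exists_nhds_zero_half hU
      refine ⟨⟨W ∩ -W, inter_mem hW (neg_mem_nhds_zero K hW)⟩, ?_, ?_⟩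
      · rintro x ⟨h1, h2⟩
        exact ⟨h2, by simpa using h1⟩
      · rintro x ⟨h1, _⟩ y ⟨h2, _⟩
        exact hWU x h1 y h2
    choose s hs1 hs2 using half
    let W : ℕ → {U : Set K // U ∈ 𝓝 (0 : K)} := fun n => Nat.rec (s ⟨V, h⟩) (fun _ U => s U) n
    have hW : ∀ n, W (n + 1) = s (W n) := fun n => rfl
    have hsym : ∀ n, ∀ x ∈ (W n).1, -x ∈ (W n).1 := by
      intro n
      cases n with
      | zero => exact hs1 _
      | succ n => rw [hW]; exact hs1 _
    refine ⟨fun n z => z ∈ (W n).1, fun x hx => ?_, fun n => ⟨mem_of_mem_nhds (W n).2, hsym n,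
      fun x y hxy => ?_, ?_⟩⟩
    · have h1 := hs2 ⟨V, h⟩ x hx 0 (mem_of_mem_nhds (W 0).2)
      simpa using h1
    · have h1 : x ∈ (s (W n)).1 := hxy.1
      exact hs2 (W n) x h1 y hxy.2
    · obtain ⟨c, hc⟩ := code_of_omega (isLeast_frakG K).1 (W n).2
      classical
      let a : ℕ → K := fun m => if hm : ∃ u, c u = m then hm.choose else 0
      refine ⟨fun m y => a m = y, ⟨fun m => ⟨a m, rfl⟩, fun m y y' h => h.1.symm.trans h.2⟩,
        fun x => ⟨c x, a (c x), rfl, hc _ _ ?_⟩⟩
      have hex : ∃ u, c u = c x := ⟨x, rfl⟩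
      simp only [a, dif_pos hex]
      exact hex.choose_spec.symm
  · rintro ⟨W, hW0, hW⟩
    have hdec : ∀ n x, W (n + 1) x → W n x := by
      intro n x hx
      have h1 := (hW n).2.2.1 x 0 ⟨hx, (hW (n + 1)).1⟩
      simpa using h1
    have hmono : ∀ n m, n ≤ m → ∀ x, W m x → W n x := by
      intro n m hnm
      induction m, hnm using Nat.le_induction with
      | base => exact fun x hx => hx
      | succ m _ ih => exact fun x hx => ih x (hdec m x hx)
    let B : AddGroupFilterBasis K := addGroupFilterBasisOfComm (Set.range fun n => {x | W n x})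
      ⟨_, ⟨0, rfl⟩⟩
      (by
        rintro _ _ ⟨n, rfl⟩ ⟨m, rfl⟩
        refine ⟨_, ⟨max n m, rfl⟩, fun x hx => ⟨hmono _ _ (le_max_left n m) x hx,
          hmono _ _ (le_max_right n m) x hx⟩⟩)
      (by
        rintro _ ⟨n, rfl⟩
        exact (hW n).1)
      (by
        rintro _ ⟨n, rfl⟩
        refine ⟨_, ⟨n + 1, rfl⟩, ?_⟩
        rintro _ ⟨x, hx, y, hy, rfl⟩
        exact (hW n).2.2.1 x y ⟨hx, hy⟩)
      (by
        rintro _ ⟨n, rfl⟩
        exact ⟨_, ⟨n, rfl⟩, fun x hx => (hW n).2.1 x hx⟩)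
    let t : TopologicalSpace K := B.topology
    have ht : @IsTopologicalAddGroup K t _ := B.isTopologicalAddGroup
    have hbasis := B.nhds_zero_hasBasis
    have hmem : ∀ n, {x | W n x} ∈ @nhds K t 0 := fun n =>
      hbasis.mem_of_mem (i := {x | W n x}) ⟨n, rfl⟩
    have hOB : t ∈ OmegaTops K := by
      refine ⟨ht, omegaBounded_of_code ht fun U hU => ?_⟩
      obtain ⟨_, ⟨n, rfl⟩, hnU⟩ := hbasis.mem_iff.1 hU
      obtain ⟨a, ha, hcov⟩ := (hW (n + 1)).2.2.2
      choose c hc using hcov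
      refine ⟨c, fun y z hyz => hnU ?_⟩
      obtain ⟨g, hg1, hg2⟩ := hc y
      obtain ⟨g', hg1', hg2'⟩ := hc z
      have hgg : g = g' := ha.2 (c y) g g' ⟨hg1, by rw [hyz]; exact hg1'⟩
      subst hgg
      have h1 := (hW n).2.2.1 (y - g) (-(z - g)) ⟨hg2, (hW (n + 1)).2.1 _ hg2'⟩
      have h2 : (y - g) + -(z - g) = y - z := by abel
      rw [h2] at h1
      exact h1
    have hle : frakG K ≤ t := (isLeast_frakG K).2 hOB
    have h3 : @nhds K (frakG K) 0 ≤ @nhds K t 0 := nhds_mono hle
    exact Filter.mem_of_superset (h3 (hmem 0)) hW0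

theorem mem_nhds_frak (x : K) (V : Set K) :
    V ∈ @nhds K (frakG K) x ↔ FrakNhd fun z => x + z ∈ V := by
  let _ := frakG K
  have hg : IsTopologicalAddGroup K := (isLeast_frakG K).1.1
  have h1 := mem_nhds_frak_zero {z : K | x + z ∈ V}
  rw [show (FrakNhd fun z => x + z ∈ V) ↔ FrakNhd fun z => z ∈ {z : K | x + z ∈ V} from Iff.rfl,
    ← h1, ← map_add_left_nhds_zero x, Filter.mem_map]
  rfl

end frak

theorem frakHomeo_iff : FrakHomeo ↔ Nonempty (@Homeomorph G2 H3 (frakG G2) (frakG H3)) :=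
  homeo_iff mem_nhds_frak mem_nhds_frak

end Pool.Agent.W631.CG
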