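import Pool.Agent.H38R3.QFinal
import Pool.Agent.W684.FM.Ambient

/-!
# Martin's axiom gives homeomorphisms
-/

set_option autoImplicit false

namespace Pool.Agent.W631.CG

open Cardinal Set Filter Topology Pool.Agent.W684.FM H38Q

/-- Martin's axiom for `ℵ₁` dense sets implies its restriction to σ-centred posets. -/
theorem maSigmaCentered (h : Pool.Agent.W684.MartinAxiomAleph1) : MASigmaCentered := by
  intro P _ _ hP 𝒟 h𝒟 hd
  obtain ⟨c, hc⟩ := hP
  refine h P ?_ 𝒟 h𝒟 hd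
  intro A hA
  rw [Set.countable_iff_exists_injOn]
  refine ⟨c, fun p hp q hq hpq => ?_⟩
  by_contra hne
  classical
  obtain ⟨r, hr⟩ := hc {p, q} ⟨p, by simp⟩ (by
    intro a ha b hb
    simp only [Finset.mem_insert, Finset.mem_singleton] at ha hb
    rcases ha with rfl | rfl <;> rcases hb with rfl | rfl
    · rfl
    · exact hpq
    · exact hpq.symm
    · rfl)
  exact hA p hp q hq hne ⟨r, hr p (by simp), hr q (by simp)⟩

section

variable {A : Set (ℕ → Bool)}

/-- the conditions of the almost disjoint coding -/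
structure Cd (A : Set (ℕ → Bool)) where
  /-- finitely many nodes -/
  s : Finset (List Bool)
  /-- finitely many branches to be avoided -/
  F : Finset A

instance : Preorder (Cd A) where
  le q p := p.s ⊆ q.s ∧ p.F ⊆ q.F ∧ ∀ t ∈ q.s, t ∉ p.s → ∀ x ∈ p.F, PiNat.res x.1 t.length ≠ t
  le_refl p := ⟨subset_rfl, subset_rfl, fun t ht ht' => absurd ht ht'⟩
  le_trans r q p h1 h2 := ⟨h2.1.trans h1.1, h2.2.1.trans h1.2.1, fun t ht ht' x hx => by
    by_cases h : t ∈ q.s
    · exact h2.2.2 t h ht' x hx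
    · exact h1.2.2 t ht h x (h2.2.1 hx)⟩

theorem Cd.sigmaCentered : SigmaCentered (Cd A) := by
  classical
  obtain ⟨e, he⟩ := exists_injective_nat (Finset (List Bool))
  refine ⟨fun p => e p.s, fun F hF hc => ?_⟩
  obtain ⟨p0, hp0⟩ := hF
  refine ⟨⟨p0.s, F.biUnion fun p => p.F⟩, fun p hp => ?_⟩
  have h1 : p.s = p0.s := he (hc p hp p0 hp0)
  exact ⟨h1.le, Finset.subset_biUnion_of_mem (fun p => p.F) hp, fun t ht ht' =>
    absurd ht (by rw [← h1]; exact ht')⟩

theorem isQSet (hMA : MASigmaCentered) {D : Set (ℕ → Bool)} (hD : #D ≤ ℵ₁) : IsQSet D := by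
  classical
  intro A hA
  have : Nonempty (Cd A) := ⟨⟨∅, ∅⟩⟩
  let d : A → Set (Cd A) := fun x => {p | x ∈ p.F}
  let e : (D \ A : Set (ℕ → Bool)) × ℕ → Set (Cd A) := fun y =>
    {p | ∃ t ∈ p.s, y.2 ≤ t.length ∧ PiNat.res y.1.1 t.length = t}
  have hcard : #((Set.range d) ∪ (Set.range e) : Set (Set (Cd A))) ≤ ℵ₁ := by
    refine (Cardinal.mk_union_le _ _).trans ?_
    have h1 : #(Set.range d) ≤ ℵ₁ := Cardinal.mk_range_le.trans
      ((Cardinal.mk_le_mk_of_subset hA).trans hD)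
    have h2 : #(Set.range e) ≤ ℵ₁ := by
      refine Cardinal.mk_range_le.trans ?_
      rw [Cardinal.mk_prod, Cardinal.lift_id, Cardinal.lift_id]
      refine (mul_le_mul' ((Cardinal.mk_le_mk_of_subset sdiff_subset).trans hD)
        (Cardinal.mk_le_aleph0 (α := ℕ))).trans ?_
      rw [Cardinal.mul_aleph0_eq (Cardinal.aleph0_le_aleph 1)]
    refine (add_le_add h1 h2).trans ?_
    rw [Cardinal.add_eq_self (Cardinal.aleph0_le_aleph 1)]
  obtain ⟨G, hG1, hG2, hG3, hG4⟩ := hMA (Cd A) Cd.sigmaCentered _ hcard (by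
    rintro _ (⟨x, rfl⟩ | ⟨⟨y, n⟩, rfl⟩) p
    · exact ⟨⟨p.s, insert x p.F⟩, Finset.mem_insert_self _ _,
        ⟨subset_rfl, Finset.subset_insert _ _, fun t ht ht' => absurd ht ht'⟩⟩
    · have h1 : ∀ x : A, ∃ k, x.1 k ≠ y.1 k := by
        intro x
        by_contra hcon
        push Not at hcon
        exact y.2.2 (by rw [← funext hcon]; exact x.2)
      choose k hk using h1
      let m := max n (p.F.sup k + 1)
      refine ⟨⟨insert (PiNat.res y.1 m) p.s, p.F⟩, ⟨_, Finset.mem_insert_self _ _, ?_, ?_⟩,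
        ⟨Finset.subset_insert _ _, subset_rfl, fun t ht ht' x hx h => ?_⟩⟩
      · rw [PiNat.res_length]
        exact le_max_left _ _
      · rw [PiNat.res_length]
      · rcases Finset.mem_insert.1 ht with rfl | ht
        · rw [PiNat.res_length, PiNat.res_eq_res] at h
          have h2 : k x ≤ p.F.sup k := Finset.le_sup hx
          exact hk x (h (lt_of_lt_of_le (Nat.lt_succ_of_le h2) (le_max_right _ _)))
        · exact ht' ht)
  let S : Set (List Bool) := {t | ∃ p ∈ G, t ∈ p.s}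
  refine ⟨fun N => {z | ∀ m ≥ N, PiNat.res z m ∉ S}, fun N => ?_, ?_⟩
  · have h1 : {z : ℕ → Bool | ∀ m ≥ N, PiNat.res z m ∉ S} =
        ⋂ m, ⋂ _ : m ≥ N, {z | PiNat.res z m ∉ S} := by
      ext z
      simp
    show IsClosed {z : ℕ → Bool | ∀ m ≥ N, PiNat.res z m ∉ S}
    rw [h1]
    refine isClosed_iInter fun m => isClosed_iInter fun _ => ?_
    rw [← isOpen_compl_iff, isOpen_iff_forall_mem_open]
    intro z hz
    refine ⟨PiNat.cylinder z m, fun w hw => ?_, PiNat.isOpen_cylinder (fun _ => Bool) z m,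
      PiNat.self_mem_cylinder z m⟩
    have h2 : PiNat.res w m = PiNat.res z m := by
      rw [PiNat.res_eq_res]
      exact hw
    simp only [mem_compl_iff, mem_ofPred_eq] at hz ⊢
    rwa [h2]
  · ext x
    constructor
    · intro hx
      refine ⟨hA hx, mem_iUnion.2 ?_⟩
      obtain ⟨p, hpG, hp⟩ := hG4 (d ⟨x, hx⟩) (Or.inl ⟨_, rfl⟩)
      refine ⟨p.s.sup List.length + 1, fun m hm hmS => ?_⟩
      obtain ⟨q, hq, hmq⟩ := hmS
      obtain ⟨r, hr, hrp, hrq⟩ := hG3 p hpG q hq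
      have h1 : PiNat.res x m ∈ r.s := hrq.1 hmq
      by_cases h2 : PiNat.res x m ∈ p.s
      · have h3 := Finset.le_sup (f := List.length) h2
        rw [PiNat.res_length] at h3
        omega
      · exact hrp.2.2 _ h1 h2 ⟨x, hx⟩ hp (by rw [PiNat.res_length])
    · rintro ⟨hxD, hx⟩
      obtain ⟨N, hN⟩ := mem_iUnion.1 hx
      by_contra hxA
      obtain ⟨p, hpG, t, ht, h1, h2⟩ := hG4 (e ⟨⟨x, hxD, hxA⟩, N⟩) (Or.inr ⟨_, rfl⟩)
      exact hN t.length h1 ⟨p, hpG, by rw [h2]; exact ht⟩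

end

theorem homeo_rho_of_ma (hMA : MASigmaCentered) {ι : Type} (hι : #ι = ℵ₁) {m n : ℕ} (hm : 2 ≤ m)
    (hn : 2 ≤ n) :
    Nonempty (@Homeomorph (ι →₀ ZMod m) (ι →₀ ZMod n) (rho _) (rho _)) := by
  have hcard : ℵ₁ ≤ #(ℕ → Bool) := by
    have h1 : #(ℕ → Bool) = 𝔠 := by simp
    rw [h1]
    exact aleph_one_le_continuum
  obtain ⟨D, hD⟩ := le_mk_iff_exists_set.1 hcard
  refine homeo_sums (isQSet hMA hD.le) ?_ (hι.trans hD.symm) hm hn
  rw [← Set.infinite_coe_iff, Cardinal.infinite_iff, hD]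
  exact Cardinal.aleph0_le_aleph 1

end Pool.Agent.W631.CG
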