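import Pool.Agent.W684.FM.Defs

/-!
# The sentences saying that the spaces are homeomorphic, and their forcing translations

For an abelian group `K` a subset of `K` is given by a predicate `U : K → Prop`, and a function by
(the predicate of) its graph. The first section expresses by such predicates that two spaces are
homeomorphic, for the pro-countable topology and for the finest `ℵ₀`-bounded group topology. The
second section is the literal translation to the forcing language of `Pool.Agent.Helper669.Forcing`:
quantifiers over predicates become quantifiers over names. (The file `Pool.Agent.W631.CG.Sanity`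
checks that for the trivial forcing notion the translations are the sentences themselves.)
-/

set_option autoImplicit false

namespace Pool.Agent.W631.CG

open Cardinal Pool.Agent.Helper669.Forcing Pool.Agent.W684.FM

/-- The direct sum of `ℵ₁` copies of `ℤ(2)`. -/
abbrev G2 : Type := Om1 →₀ ZMod 2

/-- The direct sum of `ℵ₁` copies of `ℤ(3)`. -/
abbrev H3 : Type := Om1 →₀ ZMod 3

section Ambient

variable {X Y : Type}

/-- `F` is the graph of a function from `X` to `Y`. -/
def IsFn (F : X → Y → Prop) : Prop :=
  (∀ x, ∃ y, F x y) ∧ ∀ x y y', F x y ∧ F x y' → y = y'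

/-- `F` is injective. -/
def IsInjR (F : X → Y → Prop) : Prop := ∀ x x' y, F x y ∧ F x' y → x = x'

/-- `F` is onto. -/
def IsOntoR (F : X → Y → Prop) : Prop := ∀ y, ∃ x, F x y

variable {K K' : Type} [AddCommGroup K] [AddCommGroup K']

/-- `U` is a subgroup of `K`. -/
def IsSubgp (U : K → Prop) : Prop := U 0 ∧ ∀ x y, U x ∧ U y → U (x - y)

/-- The subgroup `U` has countable index in `K`: the elements of `K` can be coloured by natural
numbers in such a way that elements of the same colour are congruent modulo `U`. -/
def CtblIndex (U : K → Prop) : Prop :=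
  ∃ c : K → ℕ → Prop, IsFn c ∧ ∀ x y n, c x n ∧ c y n → U (x - y)

/-- `V` is a neighbourhood of `0` in the pro-countable topology of `K`: it contains a subgroup of
countable index. -/
def RhoNhd (V : K → Prop) : Prop :=
  ∃ U : K → Prop, IsSubgp U ∧ CtblIndex U ∧ ∀ x, U x → V x

/-- Countably many translates of `U` cover `K`. -/
def CtblCover (U : K → Prop) : Prop :=
  ∃ a : ℕ → K → Prop, IsFn a ∧ ∀ x, ∃ n y, a n y ∧ U (x - y)

/-- `V` is a neighbourhood of `0` in the finest `ℵ₀`-bounded group topology of `K`: there is a
sequence `W 0, W 1, …` of symmetric sets containing `0` with `W 0 ⊆ V` and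
`W (n + 1) + W (n + 1) ⊆ W n`, such that countably many translates of each of them cover `K`. -/
def FrakNhd (V : K → Prop) : Prop :=
  ∃ W : ℕ → K → Prop, (∀ x, W 0 x → V x) ∧ ∀ n, W n 0 ∧ (∀ x, W n x → W n (-x)) ∧
    (∀ x y, W (n + 1) x ∧ W (n + 1) y → W n (x + y)) ∧ CtblCover (W n)

/-- `F` is a homeomorphism from `K` to `K'`, where `N V` (`N' V`) says that `V` is a neighbourhood
of `0` in the group topology of `K` (of `K'`). -/
def IsHomeoR (N : (K → Prop) → Prop) (N' : (K' → Prop) → Prop) (F : K → K' → Prop) : Prop :=
  IsFn F ∧ IsInjR F ∧ IsOntoR F ∧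
    (∀ x y, F x y → ∀ V : K' → Prop, N' V → ∃ U : K → Prop, N U ∧
      ∀ x' y', F x' y' ∧ U (x' - x) → V (y' - y)) ∧
    ∀ x y, F x y → ∀ U : K → Prop, N U → ∃ V : K' → Prop, N' V ∧
      ∀ x' y', F x' y' ∧ V (y' - y) → U (x' - x)

/-- `(G, ϱ_G)` and `(H, ϱ_H)` are homeomorphic. -/
def RhoHomeo : Prop := ∃ F : G2 → H3 → Prop, IsHomeoR RhoNhd RhoNhd F

/-- `(G, 𝔊_G)` and `(H, 𝔊_H)` are homeomorphic. -/
def FrakHomeo : Prop := ∃ F : G2 → H3 → Prop, IsHomeoR FrakNhd FrakNhd F

end Ambient

section Names

variable {P : Type} [Preorder P] {K K' : Type} [AddCommGroup K] [AddCommGroup K']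

/-- Forcing version of `IsSubgp`. -/
def IsSubgpN (U : K → Set P) : Set P :=
  fand (meets (U 0)) (fall fun x => fall fun y =>
    fimp (fand (meets (U x)) (meets (U y))) (meets (U (x - y))))

/-- Forcing version of `CtblIndex`. -/
def CtblIndexN (U : K → Set P) : Set P :=
  fex fun c : K → ℕ → Set P => fand (IsFun c) (fall fun x => fall fun y => fall fun n =>
    fimp (fand (meets (c x n)) (meets (c y n))) (meets (U (x - y))))

/-- Forcing version of `RhoNhd`. -/
def RhoNhdN (V : K → Set P) : Set P :=
  fex fun U : K → Set P => fand (IsSubgpN U) (fand (CtblIndexN U)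
    (fall fun x => fimp (meets (U x)) (meets (V x))))

/-- Forcing version of `CtblCover`. -/
def CtblCoverN (U : K → Set P) : Set P :=
  fex fun a : ℕ → K → Set P => fand (IsFun a) (fall fun x => fex fun n => fex fun y =>
    fand (meets (a n y)) (meets (U (x - y))))

/-- Forcing version of `FrakNhd`. -/
def FrakNhdN (V : K → Set P) : Set P :=
  fex fun W : ℕ → K → Set P => fand (fall fun x => fimp (meets (W 0 x)) (meets (V x)))
    (fall fun n => fand (meets (W n 0))
      (fand (fall fun x => fimp (meets (W n x)) (meets (W n (-x))))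
        (fand (fall fun x => fall fun y =>
          fimp (fand (meets (W (n + 1) x)) (meets (W (n + 1) y))) (meets (W n (x + y))))
          (CtblCoverN (W n)))))

/-- Forcing version of `IsHomeoR`. -/
def IsHomeoN (N : (K → Set P) → Set P) (N' : (K' → Set P) → Set P) (F : K → K' → Set P) :
    Set P :=
  fand (IsFun F) (fand (IsInj F) (fand (IsOnto F)
    (fand
      (fall fun x => fall fun y => fimp (meets (F x y)) (fall fun V : K' → Set P => fimp (N' V)
        (fex fun U : K → Set P => fand (N U) (fall fun x' => fall fun y' =>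
          fimp (fand (meets (F x' y')) (meets (U (x' - x)))) (meets (V (y' - y)))))))
      (fall fun x => fall fun y => fimp (meets (F x y)) (fall fun U : K → Set P => fimp (N U)
        (fex fun V : K' → Set P => fand (N' V) (fall fun x' => fall fun y' =>
          fimp (fand (meets (F x' y')) (meets (V (y' - y)))) (meets (U (x' - x))))))))))

/-- Forcing version of `RhoHomeo`. -/
def RhoHomeoN (P : Type) [Preorder P] : Set P :=
  fex fun F : G2 → H3 → Set P => IsHomeoN RhoNhdN RhoNhdN F

/-- Forcing version of `FrakHomeo`. -/
def FrakHomeoN (P : Type) [Preorder P] : Set P :=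
  fex fun F : G2 → H3 → Set P => IsHomeoN FrakNhdN FrakNhdN F

end Names

end Pool.Agent.W631.CG
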