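import Pool.Agent.W684.FM.Defs

/-!
# Pressing down for finite sets of countable ordinals
-/

set_option autoImplicit false

namespace Pool.Agent.W631.CG

open Cardinal Set Pool.Agent.W684.FM

theorem not_countable_om1 : ¬ Countable Om1 := by
  intro h
  have h1 : #Om1 = ℵ₁ := Cardinal.mk_ord_toType _
  have h2 := Cardinal.mk_le_aleph0 (α := Om1)
  rw [h1] at h2
  exact absurd h2 (not_le.2 Cardinal.aleph0_lt_aleph_one)

theorem countable_Iio (s : Om1) : (Set.Iio s).Countable := by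
  have h := Cardinal.mk_Iio_lt s (by rw [Cardinal.mk_ord_toType, Ordinal.type_toType])
  rw [Cardinal.mk_ord_toType] at h
  apply Cardinal.le_aleph0_iff_set_countable.1
  rw [← Order.lt_succ_iff, Cardinal.succ_aleph0]
  exact h

theorem countable_Iic (s : Om1) : (Set.Iic s).Countable := by
  have : Set.Iic s = insert s (Set.Iio s) := by
    ext x
    simp only [Set.mem_Iic, Set.mem_insert_iff, Set.mem_Iio]
    exact le_iff_eq_or_lt
  rw [this]
  exact (countable_Iio s).insert s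

theorem exists_bound' (S : Set Om1) (hS : S.Countable) : ∃ u, ∀ s ∈ S, s < u := by
  by_contra hcon
  push Not at hcon
  apply not_countable_om1
  have h1 : (Set.univ : Set Om1) = ⋃ s ∈ S, Set.Iic s := by
    ext u
    obtain ⟨s, hs, hu⟩ := hcon u
    simp only [Set.mem_univ, Set.mem_iUnion, true_iff]
    exact ⟨s, hs, hu⟩
  have h2 : (Set.univ : Set Om1).Countable := by
    rw [h1]
    exact hS.biUnion fun s _ => countable_Iic s
  exact Set.countable_univ_iff.1 h2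

/-- limit points closed under a given function -/
theorem exists_closed' (b : Om1 → Om1) :
    ∃ δ : Om1, (∃ x, x < δ) ∧ ∀ ξ < δ, b ξ < δ := by
  have hstep : ∀ x : Om1, ∃ u, x < u ∧ ∀ ξ ≤ x, b ξ < u := by
    intro x
    obtain ⟨u, hu⟩ := exists_bound' (insert x (b '' Set.Iic x))
      (((countable_Iic x).image b).insert x)
    exact ⟨u, hu x (Set.mem_insert _ _), fun ξ hξ => hu _ (Or.inr ⟨ξ, hξ, rfl⟩)⟩
  choose h hh1 hh2 using hstep
  obtain ⟨x0, _⟩ := exists_bound' ∅ Set.countable_empty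
  let d : ℕ → Om1 := fun n => Nat.rec x0 (fun _ y => h y) n
  have hd : ∀ n, d (n + 1) = h (d n) := fun n => rfl
  have hne : {u : Om1 | ∀ n, d n < u}.Nonempty := by
    obtain ⟨u, hu⟩ := exists_bound' (Set.range d) (Set.countable_range d)
    exact ⟨u, fun n => hu _ ⟨n, rfl⟩⟩
  obtain ⟨δ, hδ, hmin⟩ := WellFounded.has_min (wellFounded_lt (α := Om1)) _ hne
  have hlow : ∀ ξ < δ, ∃ n, ξ ≤ d n := by
    intro ξ hξ
    by_contra hcon
    push Not at hcon
    exact hmin ξ hcon hξ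
  refine ⟨δ, ⟨d 0, hδ 0⟩, fun ξ hξ => ?_⟩
  obtain ⟨n, hn⟩ := hlow ξ hξ
  have h1 : b ξ < d (n + 1) := by rw [hd]; exact hh2 _ _ hn
  exact h1.trans (hδ (n + 1))

/-- pressing down for finite sets -/
theorem press {Z : Type} [Countable Z] (A : Om1 → Finset Om1) (hA : ∀ β, ∀ α ∈ A β, α < β)
    (z : Om1 → Z) : ∃ A0 z0, ¬ {β | A β = A0 ∧ z β = z0}.Countable := by
  by_contra hcon
  push Not at hcon
  choose b hb using fun A0 z0 => exists_bound' _ (hcon A0 z0)
  have h1 : ∀ ξ : Om1, ∃ u, ∀ A0 : Finset Om1, (∀ α ∈ A0, α ≤ ξ) → ∀ z0, b A0 z0 < u := by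
    intro ξ
    have hc : {A0 : Finset Om1 | ∀ α ∈ A0, α ≤ ξ}.Countable := by
      have h2 := Set.countable_ofPred_finite_subset (countable_Iic ξ)
      refine Set.countable_of_injective_of_countable_image (f := fun A : Finset Om1 => (A : Set Om1))
        (Finset.coe_injective.injOn) (h2.mono ?_)
      rintro _ ⟨A0, hA0, rfl⟩
      exact ⟨A0.finite_toSet, fun α hα => hA0 α hα⟩
    obtain ⟨u, hu⟩ := exists_bound' (⋃ A0 ∈ {A0 : Finset Om1 | ∀ α ∈ A0, α ≤ ξ}, Set.range (b A0))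
      (hc.biUnion fun A0 _ => Set.countable_range _)
    exact ⟨u, fun A0 hA0 z0 => hu _ (mem_iUnion₂.2 ⟨A0, hA0, ⟨z0, rfl⟩⟩)⟩
  choose B hB using h1
  obtain ⟨δ, ⟨x, hx⟩, hδ⟩ := exists_closed' B
  have h3 : δ < b (A δ) (z δ) := hb _ _ δ ⟨rfl, rfl⟩
  obtain ⟨ξ, hξ, hξ2⟩ : ∃ ξ < δ, ∀ α ∈ A δ, α ≤ ξ := by
    by_cases hne : (A δ).Nonempty
    · exact ⟨(A δ).max' hne, hA δ _ (Finset.max'_mem _ _), fun α hα => Finset.le_max' _ _ hα⟩
    · rw [Finset.not_nonempty_iff_eq_empty] at hne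
      exact ⟨x, hx, by rw [hne]; simp⟩
  exact absurd (h3.trans ((hB ξ _ hξ2 (z δ)).trans (hδ ξ hξ))) (lt_irrefl _)

end Pool.Agent.W631.CG
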