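import Pool.Agent.W631.CG.Fn
import Pool.Agent.W631.CG.Om
import Pool.Agent.W631.CG.Defs

/-!
# The combinatorial core
-/

set_option autoImplicit false

namespace Pool.Agent.W631.CG

open Cardinal Set Pool.Agent.Helper669.Forcing Pool.Agent.W684.FM

/-- The direct sum of `ℵ₀` copies of `ℤ(3)`. -/
abbrev K3 : Type := ℕ →₀ ZMod 3

theorem G2.sub_eq (x y : G2) : x - y = x + y := by
  ext i
  simp [CharTwo.sub_eq_add]

theorem K3.three (d : K3) : d + d + d = 0 := by
  ext i
  have : ∀ z : ZMod 3, z + z + z = 0 := by decide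
  simpa using this (d i)

/-- the homomorphism given by its values on the generators -/
noncomputable def ev (v : Om1 → K3) (h : H3) : K3 := h.sum fun α z => z • v α

theorem ev_congr {v w : Om1 → K3} {h : H3} (hvw : ∀ α ∈ h.support, v α = w α) :
    ev v h = ev w h :=
  Finsupp.sum_congr fun α hα => by rw [hvw α hα]

theorem ev_add (v w : Om1 → K3) (h : H3) : ev (fun α => v α + w α) h = ev v h + ev w h := by
  simp only [ev, Finsupp.sum, smul_add, Finset.sum_add_distrib]

theorem ev_zero (h : H3) : ev (fun _ => 0) h = 0 := by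
  simp [ev, Finsupp.sum]

theorem ev_sum {ι : Type} (s : Finset ι) (v : ι → Om1 → K3) (h : H3) :
    ev (fun α => ∑ k ∈ s, v k α) h = ∑ k ∈ s, ev (v k) h := by
  classical
  induction s using Finset.induction_on with
  | empty => simp [ev_zero]
  | insert a s ha ih =>
    simp only [Finset.sum_insert ha]
    rw [ev_add, ih]

theorem ev_apply (v : Om1 → K3) (h : H3) (m : ℕ) :
    ev v h m = ∑ α ∈ h.support, h α * v α m := by
  simp [ev, Finsupp.sum, Finsupp.finsetSum_apply]

theorem ev_sub (v : Om1 → K3) (h h' : H3) : ev v (h - h') = ev v h - ev v h' := by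
  unfold ev
  exact Finsupp.sum_sub_index fun α z z' => sub_smul z z' (v α)

/-- the name of the generic homomorphism with values `k` -/
def Sn {J : Type} (j : Om1 → J) (h : H3) (k : K3) : Set (Fn J K3) :=
  {p | (∀ α ∈ h.support, j α ∈ p.dom) ∧ ev (fun α => p.val (j α)) h = k}

theorem down_Sn {J : Type} (j : Om1 → J) (h : H3) (k : K3) : Down (Sn j h k) := by
  rintro p ⟨h1, h2⟩ q hq
  refine ⟨fun α hα => hq.1 (h1 α hα), ?_⟩
  rw [← h2]
  exact ev_congr fun α hα => hq.2 _ (h1 α hα)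

theorem Sn_unique {J : Type} {j : Om1 → J} {h : H3} {k k' : K3} {p s : Fn J K3}
    (hp : p ∈ Sn j h k) (hs : s ∈ Sn j h k') (hsp : s ≤ p) : k = k' := by
  rw [← hs.2]
  exact (down_Sn j h k p hp s hsp).2.symm

/-- the name of the kernel of the generic homomorphism -/
abbrev Vn {J : Type} (j : Om1 → J) (h : H3) : Set (Fn J K3) := Sn j h 0

theorem mem_of_meets_Sn {J : Type} {j : Om1 → J} (hj : Function.Injective j) {h : H3} {k : K3}
    {q : Fn J K3} (hq : q ∈ meets (Sn j h k)) : q ∈ Sn j h k := by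
  classical
  have key : ∀ r ≤ q, (∀ α ∈ h.support, j α ∈ r.dom) → ev (fun α => r.val (j α)) h = k := by
    intro r hr hdom
    obtain ⟨r', hr', hr'2⟩ := exists_of_meets (down_Sn j h k) (down_meets _ _ hq r hr)
    rw [← hr'2.2]
    exact ev_congr fun α hα => (hr'.2 _ (hdom α hα)).symm
  have hdom : ∀ α ∈ h.support, j α ∈ q.dom := by
    intro α0 hα0
    by_contra hcon
    let D : Finset J := q.dom ∪ h.support.image j
    let v : J → K3 := fun i => if i ∈ q.dom then q.val i else 0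
    let w : J → K3 := fun i => if i = j α0 then Finsupp.single 0 1 else 0
    have hD : ∀ α ∈ h.support, j α ∈ D := fun α hα =>
      Finset.mem_union_right _ (Finset.mem_image_of_mem _ hα)
    have h1 := key ⟨D, v⟩ ⟨Finset.subset_union_left, fun i hi => by simp [v, hi]⟩ hD
    have h2 := key ⟨D, fun i => v i + w i⟩ ⟨Finset.subset_union_left, fun i hi => by
      have : i ≠ j α0 := fun h => hcon (h ▸ hi)
      simp [v, w, hi, this]⟩ hD
    have h3 : ev (fun α => w (j α)) h = 0 := by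
      have h4 := ev_add (fun α => v (j α)) (fun α => w (j α)) h
      simp only at h1 h2
      rw [h2, h1] at h4
      simpa using h4.symm
    have h5 := ev_apply (fun α => w (j α)) h 0
    rw [h3, Finset.sum_eq_single α0] at h5
    · simp only [w, if_true, Finsupp.single_eq_same, mul_one, Finsupp.coe_zero,
        Pi.zero_apply] at h5
      exact (Finsupp.mem_support_iff.1 hα0) h5.symm
    · intro α _ hne
      have : j α ≠ j α0 := fun h => hne (hj h)
      simp [w, this]
    · intro h6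
      exact absurd hα0 h6
  exact ⟨hdom, key q le_rfl hdom⟩

/-- two responses with independent differences on `S` -/
theorem pair {J : Type} {S : Set J} {q0 : Fn J K3} (hS : ∀ i ∈ q0.dom, i ∉ S)
    (c : ℕ → Set (Fn J K3)) (hc : ∀ n, Down (c n)) (htot : ∀ r ≤ q0, ∃ r' ≤ r, ∃ n, r' ∈ c n) :
    ∃ (D : Finset J) (u u' : J → K3) (ν : J → ℕ) (n n' : ℕ),
      (⟨D, u⟩ : Fn J K3) ≤ q0 ∧ (⟨D, u'⟩ : Fn J K3) ≤ q0 ∧ ⟨D, u⟩ ∈ c n ∧ ⟨D, u'⟩ ∈ c n' ∧
      (∀ i ∈ D, i ∉ S → u' i = u i) ∧ (∀ i ∈ D, i ∈ S → u' i = u i + Finsupp.single (ν i) 1) ∧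
      InjOn ν (D : Set J) := by
  classical
  obtain ⟨r1, hr1, n, hn⟩ := htot q0 le_rfl
  obtain ⟨ν1, hν1⟩ := Set.countable_iff_exists_injOn.1 (r1.dom.countable_toSet)
  let r1' : Fn J K3 := ⟨r1.dom, fun i => if i ∈ S then r1.val i + Finsupp.single (ν1 i) 1
    else r1.val i⟩
  have hr1' : r1' ≤ q0 := ⟨hr1.1, fun i hi => by
    simp only [r1', hS i hi, if_false]
    exact hr1.2 i hi⟩
  obtain ⟨r2, hr2, n', hn'⟩ := htot r1' hr1'
  obtain ⟨f, hf⟩ := Set.countable_iff_exists_injOn.1 (r2.dom.countable_toSet)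
  let M := r1.dom.sup ν1 + 1
  have hM : ∀ i ∈ r1.dom, ν1 i < M := fun i hi => Nat.lt_succ_of_le (Finset.le_sup hi)
  let ν : J → ℕ := fun i => if i ∈ r1.dom then ν1 i else M + f i
  let u : J → K3 := fun i => if i ∈ r1.dom then r1.val i else
    if i ∈ S then r2.val i - Finsupp.single (ν i) 1 else r2.val i
  have hsub : r1.dom ⊆ r2.dom := hr2.1
  have hu : (⟨r2.dom, u⟩ : Fn J K3) ≤ r1 := ⟨hsub, fun i hi => by simp [u, hi]⟩
  refine ⟨r2.dom, u, r2.val, ν, n, n', hu.trans hr1, hr2.trans hr1', hc n _ hn _ hu, hn',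
    ?_, ?_, ?_⟩
  · intro i hi hiS
    by_cases h : i ∈ r1.dom
    · have h1 : r2.val i = r1'.val i := hr2.2 i h
      simp only [r1', hiS, if_false] at h1
      simp [u, h, h1]
    · simp [u, h, hiS]
  · intro i hi hiS
    by_cases h : i ∈ r1.dom
    · have h1 : r2.val i = r1'.val i := hr2.2 i h
      simp only [r1', hiS, if_true] at h1
      simp [u, ν, h, h1]
    · simp [u, h, hiS]
  · intro i hi i' hi' h
    simp only [ν] at h
    split_ifs at h with h1 h2 h2
    · exact hν1 h1 h2 h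
    · have := hM i h1
      omega
    · have := hM i' h2
      omega
    · exact hf hi hi' (by omega)

open Classical in
/-- common extension of a finite family -/
theorem Fn.exists_lb_family {J K ι : Type} [Fintype ι] [Nonempty ι] (p : ι → Fn J K)
    (h : ∀ k l, Fn.Agree (p k) (p l)) : ∃ r : Fn J K, ∀ k, r ≤ p k := by
  let k0 : ι := Classical.arbitrary ι
  refine ⟨⟨Finset.univ.biUnion fun k => (p k).dom, fun i => if hi : ∃ k, i ∈ (p k).dom then
    (p hi.choose).val i else (p k0).val i⟩, fun k => ⟨fun i hi =>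
      Finset.mem_biUnion.2 ⟨k, Finset.mem_univ _, hi⟩, fun i hi => ?_⟩⟩
  have hex : ∃ k, i ∈ (p k).dom := ⟨k, hi⟩
  simp only [dif_pos hex]
  exact h _ _ i hex.choose_spec hi

theorem mk_G2 : #G2 ≤ ℵ₁ := by
  have h1 : #Om1 = ℵ₁ := Cardinal.mk_ord_toType _
  have h0 : ℵ₀ ≤ #Om1 := by rw [h1]; exact Cardinal.aleph0_le_aleph 1
  have : Infinite Om1 := Cardinal.infinite_iff.2 h0
  rw [Cardinal.mk_finsupp_of_infinite, h1]
  exact max_le le_rfl ((Cardinal.mk_le_aleph0).trans (Cardinal.aleph0_le_aleph 1))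

theorem mk_H3 : #H3 ≤ ℵ₁ := by
  have h1 : #Om1 = ℵ₁ := Cardinal.mk_ord_toType _
  have h0 : ℵ₀ ≤ #Om1 := by rw [h1]; exact Cardinal.aleph0_le_aleph 1
  have : Infinite Om1 := Cardinal.infinite_iff.2 h0
  rw [Cardinal.mk_finsupp_of_infinite, h1]
  exact max_le le_rfl ((Cardinal.mk_le_aleph0).trans (Cardinal.aleph0_le_aleph 1))

end Pool.Agent.W631.CG
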