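import Pool.Agent.W631.CG.Core

/-!
# The main combinatorial theorem
-/

set_option autoImplicit false

namespace Pool.Agent.W631.CG

open Cardinal Set Pool.Agent.Helper669.Forcing Pool.Agent.W684.FM

section

variable {J : Type} {j : Om1 → J} (hj : Function.Injective j) {q0 : Fn J K3}
  {c : G2 → ℕ → Set (Fn J K3)} {F : G2 → H3 → Set (Fn J K3)} {y0 : H3} {I0 : Set J}
  (hI0 : ∀ α, j α ∉ I0) (hF : ∀ x y, ∀ q ∈ meets (F x y), q.res I0 ∈ meets (F x y))
  (hc : ∀ a n, Down (c a n))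
  (hmain : ∀ a b a' b' n n' y, ∀ r ≤ q0, r ∈ c a n → r ∈ c b n → r ∈ c a' n' → r ∈ c b' n' →
    r ∈ meets (F ((a - b) + (a' - b')) y) → r ∈ meets (Vn j (y - y0)))
  {T : Set Om1} {D : Om1 → Finset J} {u u' : Om1 → J → K3} {ν : Om1 → J → ℕ} {S : Om1 → Set J}
  (hu : ∀ β ∈ T, (⟨D β, u β⟩ : Fn J K3) ≤ q0)
  (hSj : ∀ β, ∀ i ∈ S β, ∃ α, j α = i)
  {n0 n0' : ℕ}
  (hn : ∀ β ∈ T, (⟨D β, u β⟩ : Fn J K3) ∈ c (Finsupp.single β 1) n0)
  (hn' : ∀ β ∈ T, (⟨D β, u' β⟩ : Fn J K3) ∈ c (Finsupp.single β 1) n0')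
  (h1 : ∀ β ∈ T, ∀ i ∈ D β, i ∉ S β → u' β i = u β i)
  (h2 : ∀ β ∈ T, ∀ i ∈ D β, i ∈ S β → u' β i = u β i + Finsupp.single (ν β i) 1)
  (hν : ∀ β ∈ T, InjOn (ν β) (D β : Set J))
  (hdis : ∀ β ∈ T, ∀ β' ∈ T, β ≠ β' → ∀ i ∈ D β, i ∈ D β' → i ∉ S β ∧ u β i = u β' i)
  {T0 : Set Om1} (hT0 : ∀ β ∈ T, ∀ α, j α ∈ D β → α ∉ T0 → j α ∈ S β)

include hj hI0 hF hc hmain hu hSj hn hn' h1 h2 hν hdis hT0 in
/-- the values at sums of four generators are congruent to `y0` outside of `T0` -/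
theorem claim (β : Fin 4 → Om1) (hβ : ∀ k, β k ∈ T) (hβi : Function.Injective β) {t : Fn J K3}
    (ht : ∀ k, t ≤ ⟨D (β k), u (β k)⟩) {y : H3}
    (hty : t ∈ meets (F (∑ k, Finsupp.single (β k) 1) y)) :
    ∀ α ∈ (y - y0).support, α ∈ T0 := by
  classical
  set h := y - y0 with hh
  let δ : Fin 4 → J → K3 := fun k i =>
    if i ∈ D (β k) ∧ i ∈ S (β k) then Finsupp.single (ν (β k) i) 1 else 0
  let w : (Fin 4 → Bool) → J → K3 := fun κ i => t.val i + ∑ k, if κ k then δ k i else 0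
  let dm : Finset J := (t.res I0).dom ∪ Finset.univ.biUnion fun k => D (β k)
  have e1 : ∀ κ, (⟨dm, w κ⟩ : Fn J K3) ≤ t.res I0 := by
    intro κ
    refine ⟨Finset.subset_union_left, fun i hi => ?_⟩
    have hi0 := (Fn.mem_res_dom.1 hi).2
    have : ∀ k, δ k i = 0 := by
      intro k
      simp only [δ]
      rw [if_neg]
      rintro ⟨_, hS⟩
      obtain ⟨α, rfl⟩ := hSj _ _ hS
      exact hI0 α hi0
    simp [w, this, Fn.res_val]
  have e2 : ∀ κ k, (⟨dm, w κ⟩ : Fn J K3) ≤ ⟨D (β k), if κ k then u' (β k) else u (β k)⟩ := by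
    intro κ k
    refine ⟨fun i hi => Finset.mem_union_right _ (Finset.mem_biUnion.2 ⟨k, Finset.mem_univ _, hi⟩),
      fun i hi => ?_⟩
    simp only at hi ⊢
    have h3 : ∀ l, l ≠ k → δ l i = 0 := by
      intro l hl
      simp only [δ]
      rw [if_neg]
      rintro ⟨h4, h5⟩
      exact (hdis _ (hβ l) _ (hβ k) (fun h => hl (hβi h)) i h4 hi).1 h5
    have h4 : (∑ l, if κ l then δ l i else 0) = if κ k then δ k i else 0 := by
      apply Finset.sum_eq_single k
      · intro l _ hl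
        simp [h3 l hl]
      · intro h5
        exact absurd (Finset.mem_univ k) h5
    have h5 : t.val i = u (β k) i := (ht k).2 i hi
    simp only [w, h4, h5]
    by_cases hκ : κ k
    · simp only [hκ, if_true, δ, hi, true_and]
      by_cases hS : i ∈ S (β k)
      · simp only [hS, if_true]
        exact (h2 _ (hβ k) i hi hS).symm
      · simp only [hS, if_false, add_zero]
        exact (h1 _ (hβ k) i hi hS).symm
    · simp [hκ]
  have e3 : ∀ κ k, (⟨dm, w κ⟩ : Fn J K3) ∈ c (Finsupp.single (β k) 1)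
      (if κ k then n0' else n0) := by
    intro κ k
    have h3 := e2 κ k
    by_cases hκ : κ k
    · simp only [hκ, if_true] at h3 ⊢
      exact hc _ _ _ (hn' _ (hβ k)) _ h3
    · simp only [hκ] at h3 ⊢
      exact hc _ _ _ (hn _ (hβ k)) _ h3
  have e4 : ∀ κ, (⟨dm, w κ⟩ : Fn J K3) ∈ meets (F (∑ k, Finsupp.single (β k) 1) y) := fun κ =>
    down_meets _ _ (hF _ _ _ hty) _ (e1 κ)
  have e5 : ∀ κ, (⟨dm, w κ⟩ : Fn J K3) ≤ q0 := by
    intro κ
    have hdom : q0.dom ⊆ D (β 0) := (hu _ (hβ 0)).1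
    -- the values on the domain of q0 do not change
    have h3 := e2 κ 0
    by_cases hκ : κ 0
    · refine ⟨hdom.trans h3.1, fun i hi => ?_⟩
      have h4 := e2 κ 1
      have hi1 : i ∈ D (β 1) := (hu _ (hβ 1)).1 hi
      have hi0 : i ∈ D (β 0) := hdom hi
      have hne : β 0 ≠ β 1 := fun h => by
        have := hβi h
        exact absurd this (by decide)
      have h5 := (hdis _ (hβ 0) _ (hβ 1) hne i hi0 hi1).1
      have h6 := h3.2 i hi0
      simp only [hκ, if_true] at h6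
      show w κ i = q0.val i
      rw [h6, h1 _ (hβ 0) i hi0 h5]
      exact (hu _ (hβ 0)).2 i hi
    · simp only [hκ] at h3
      exact h3.trans (hu _ (hβ 0))
  have fin : ∀ (κ : Fin 4 → Bool) (a b a' b' : Fin 4), κ a = κ b → κ a' = κ b' →
      (∑ k, (Finsupp.single (β k) 1 : G2)) = (Finsupp.single (β a) 1 - Finsupp.single (β b) 1) +
        (Finsupp.single (β a') 1 - Finsupp.single (β b') 1) →
      (⟨dm, w κ⟩ : Fn J K3) ∈ Sn j h 0 := by
    intro κ a b a' b' hab hab' hs
    apply mem_of_meets_Sn hj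
    refine hmain _ _ _ _ _ _ y _ (e5 κ) (e3 κ a) ?_ (e3 κ a') ?_ (by rw [← hs]; exact e4 κ)
    · rw [hab]; exact e3 κ b
    · rw [hab']; exact e3 κ b'
  -- evaluation
  have hev : ∀ κ, ev (fun α => w κ (j α)) h = ev (fun α => t.val (j α)) h +
      ∑ k, if κ k then ev (fun α => δ k (j α)) h else 0 := by
    intro κ
    simp only [w]
    rw [ev_add, ev_sum]
    congr 1
    apply Finset.sum_congr rfl
    intro k _
    by_cases hκ : κ k
    · simp [hκ]
    · simp [hκ, ev_zero]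
  set d : Fin 4 → K3 := fun k => ev (fun α => δ k (j α)) h with hd
  set e0 := ev (fun α => t.val (j α)) h with he0
  have s1 : (∑ k, (Finsupp.single (β k) 1 : G2)) =
      (Finsupp.single (β 0) 1 - Finsupp.single (β 1) 1) +
        (Finsupp.single (β 2) 1 - Finsupp.single (β 3) 1) := by
    rw [Fin.sum_univ_four, G2.sub_eq, G2.sub_eq]
    abel
  have s2 : (∑ k, (Finsupp.single (β k) 1 : G2)) =
      (Finsupp.single (β 0) 1 - Finsupp.single (β 2) 1) +
        (Finsupp.single (β 1) 1 - Finsupp.single (β 3) 1) := by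
    rw [Fin.sum_univ_four, G2.sub_eq, G2.sub_eq]
    abel
  have s3 : (∑ k, (Finsupp.single (β k) 1 : G2)) =
      (Finsupp.single (β 1) 1 - Finsupp.single (β 2) 1) +
        (Finsupp.single (β 0) 1 - Finsupp.single (β 3) 1) := by
    rw [Fin.sum_univ_four, G2.sub_eq, G2.sub_eq]
    abel
  have r0 := fin ![false, false, false, false] 0 1 2 3 rfl rfl s1
  have r1 := fin ![true, true, false, false] 0 1 2 3 rfl rfl s1
  have r2 := fin ![true, false, true, false] 0 2 1 3 rfl rfl s2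
  have r3 := fin ![false, true, true, false] 1 2 0 3 rfl rfl s3
  have r4 := fin ![false, false, true, true] 0 1 2 3 rfl rfl s1
  have E0 := (hev ![false, false, false, false]).symm.trans r0.2
  have E1 := (hev ![true, true, false, false]).symm.trans r1.2
  have E2 := (hev ![true, false, true, false]).symm.trans r2.2
  have E3 := (hev ![false, true, true, false]).symm.trans r3.2
  have E4 := (hev ![false, false, true, true]).symm.trans r4.2
  simp only [Fin.sum_univ_four, Matrix.cons_val_zero, Matrix.cons_val_one, Matrix.cons_val,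
    if_true, Bool.false_eq_true, if_false, add_zero, zero_add] at E0 E1 E2 E3 E4
  have d0 : d 0 = 0 := by
    have := K3.three (d 0)
    have h5 : d 0 + d 1 = 0 := by simpa [E0] using E1
    have h6 : d 0 + d 2 = 0 := by simpa [E0] using E2
    have h7 : d 1 + d 2 = 0 := by simpa [E0] using E3
    calc d 0 = (d 0 + d 0 + d 0) - ((d 0 + d 1) + (d 0 + d 2) - (d 1 + d 2)) := by abel
      _ = 0 := by rw [this, h5, h6, h7]; simp
  have hd' : ∀ k, d k = 0 := by
    have h5 : d 0 + d 1 = 0 := by simpa [E0] using E1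
    have h6 : d 0 + d 2 = 0 := by simpa [E0] using E2
    have h8 : d 2 + d 3 = 0 := by simpa [E0] using E4
    have d1 : d 1 = 0 := by simpa [d0] using h5
    have d2 : d 2 = 0 := by simpa [d0] using h6
    have d3 : d 3 = 0 := by simpa [d2] using h8
    intro k
    fin_cases k
    · exact d0
    · exact d1
    · exact d2
    · exact d3
  -- conclusion
  intro α hα
  by_contra hαT
  have h3 := r0.1 α hα
  rcases Finset.mem_union.1 h3 with h4 | h4
  · exact hI0 α (Fn.mem_res_dom.1 h4).2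
  · obtain ⟨k, _, hk⟩ := Finset.mem_biUnion.1 h4
    have hS := hT0 _ (hβ k) α hk hαT
    have h5 := ev_apply (fun α => δ k (j α)) h (ν (β k) (j α))
    have h6 : ev (fun α => δ k (j α)) h = 0 := hd' k
    rw [h6, Finset.sum_eq_single α] at h5
    · simp only [δ, hk, hS, and_self, if_true, Finsupp.single_eq_same, mul_one,
        Finsupp.coe_zero, Pi.zero_apply] at h5
      exact (Finsupp.mem_support_iff.1 hα) h5.symm
    · intro α' _ hne
      simp only [δ]
      split_ifs with h7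
      · rw [Finsupp.single_apply, if_neg, mul_zero]
        intro h8
        exact hne (hj (hν _ (hβ k) h7.1 hk h8))
      · simp
    · intro h7
      exact absurd hα h7

end

theorem core {J : Type} (hJ : ℵ₁ < #J) (F : G2 → H3 → Set (Fn J K3)) :
    ∃ j : Om1 → J, Function.Injective j ∧ ∀ (q0 : Fn J K3) (c : G2 → ℕ → Set (Fn J K3)) (y0 : H3),
      q0 ∈ IsFun F → q0 ∈ IsInj F → (∀ a n, Down (c a n)) →
      (∀ a, ∀ r ≤ q0, ∃ r' ≤ r, ∃ n, r' ∈ c a n) →
      (∀ a b a' b' n n' y, ∀ r ≤ q0, r ∈ c a n → r ∈ c b n → r ∈ c a' n' → r ∈ c b' n' →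
        r ∈ meets (F ((a - b) + (a' - b')) y) → r ∈ meets (Vn j (y - y0))) → False := by
  classical
  obtain ⟨I0, hI0, hF⟩ := Fn.exists_support_family (J := J) (K := K3) (X := G2 × H3) (by
    rw [Cardinal.mk_prod, Cardinal.lift_id, Cardinal.lift_id]
    refine (mul_le_mul' mk_G2 mk_H3).trans ?_
    rw [Cardinal.mul_eq_self (Cardinal.aleph0_le_aleph 1)]) (fun x => F x.1 x.2)
  have hJinf : Infinite J := Cardinal.infinite_iff.2 ((Cardinal.aleph0_le_aleph 1).trans hJ.le)
  have hcompl : #(I0ᶜ : Set J) = #J := Cardinal.mk_compl_of_infinite _ (hI0.trans_lt hJ)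
  obtain ⟨e⟩ : Nonempty (Om1 ↪ (I0ᶜ : Set J)) := by
    have h1 : #Om1 ≤ #(I0ᶜ : Set J) := by
      rw [hcompl, show #Om1 = ℵ₁ from Cardinal.mk_ord_toType _]
      exact hJ.le
    exact h1
  have hj : Function.Injective fun α => (e α).1 := fun α α' h => e.injective (Subtype.ext h)
  refine ⟨fun α => (e α).1, hj, ?_⟩
  set j : Om1 → J := fun α => (e α).1 with hjdef
  have hI0j : ∀ α, j α ∉ I0 := fun α => (e α).2
  intro q0 c y0 hfun hinj hc htot hmain
  let S : Om1 → Set J := fun β => {i | (∃ α, β ≤ α ∧ j α = i) ∧ i ∉ q0.dom}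
  have hpair : ∀ β : Om1, _ := fun β => pair (S := S β) (q0 := q0) (fun i hi hS => hS.2 hi)
    (c (Finsupp.single β 1)) (hc _) (htot _)
  choose D u u' ν n n' hu hu' hn hn' h1 h2 hν using hpair
  let A : Om1 → Finset Om1 := fun β => ((D β).preimage j hj.injOn).filter (· < β)
  have hA : ∀ β α, α ∈ A β ↔ j α ∈ D β ∧ α < β := by
    intro β α
    simp [A]
  obtain ⟨A0, z0, hE⟩ := press A (fun β α hα => ((hA β α).1 hα).2) (fun β => (n β, n' β))
  obtain ⟨T, hTE, hTc, R, hR1, hR2, hR3⟩ := Fn.delta {β | A β = A0 ∧ (n β, n' β) = z0} hE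
    (fun β => (⟨D β, u β⟩ : Fn J K3))
  simp only at hR1 hR2 hR3
  have hRS : ∀ β ∈ T, ∀ i ∈ R, i ∉ S β := by
    rintro β hβ i hi ⟨⟨α, hα, rfl⟩, _⟩
    obtain ⟨β', hβ', hlt⟩ : ∃ β' ∈ T, α < β' := by
      by_contra hcon
      push Not at hcon
      exact hTc ((countable_Iic α).mono fun β' hβ' => hcon β' hβ')
    have h3 : α ∈ A β' := (hA _ _).2 ⟨hR1 β' hβ' hi, hlt⟩
    rw [(hTE hβ').1, ← (hTE hβ).1] at h3
    exact absurd ((hA _ _).1 h3).2 (not_lt.2 hα)
  have hdis : ∀ β ∈ T, ∀ β' ∈ T, β ≠ β' → ∀ i ∈ D β, i ∈ D β' → i ∉ S β ∧ u β i = u β' i := by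
    intro β hβ β' hβ' hne i hi hi'
    have hiR : i ∈ R := by
      rw [← hR2 β hβ β' hβ' hne]
      exact ⟨hi, hi'⟩
    exact ⟨hRS β hβ i hiR, hR3 β hβ β' hβ' i hiR⟩
  let T0 : Finset Om1 := A0 ∪ q0.dom.preimage j hj.injOn
  have hT0 : ∀ β ∈ T, ∀ α, j α ∈ D β → α ∉ (T0 : Set Om1) → j α ∈ S β := by
    intro β hβ α hα hαT
    simp only [T0, Finset.coe_union, Finset.coe_preimage, mem_union, Finset.mem_coe,
      mem_preimage, not_or] at hαT
    refine ⟨⟨α, ?_, rfl⟩, hαT.2⟩
    by_contra hlt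
    apply hαT.1
    rw [← (hTE hβ).1, hA]
    exact ⟨hα, not_le.1 hlt⟩
  have key := claim (j := j) hj (q0 := q0) (c := c) (F := F) (y0 := y0) (I0 := I0) hI0j
    (fun x y => hF (x, y)) hc hmain (T := T) (D := D) (u := u) (u' := u') (ν := ν) (S := S)
    (fun β _ => hu β) (fun β i hi => ⟨hi.1.choose, hi.1.choose_spec.2⟩) (n0 := z0.1) (n0' := z0.2)
    (fun β hβ => by
      have := congrArg Prod.fst (hTE hβ).2
      simp only at this
      rw [← this]; exact hn β)
    (fun β hβ => by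
      have := congrArg Prod.snd (hTE hβ).2
      simp only at this
      rw [← this]; exact hn' β)
    (fun β _ => h1 β) (fun β _ => h2 β) (fun β _ => hν β) hdis (T0 := (T0 : Set Om1)) hT0
  -- three points
  have step : ∀ X : Set Om1, X.Countable → ∃ β ∈ T, β ∉ X := by
    intro X hX
    by_contra hcon
    push Not at hcon
    exact hTc (hX.mono hcon)
  obtain ⟨b0, hb0, -⟩ := step ∅ countable_empty
  obtain ⟨b1, hb1, hb1'⟩ := step {b0} (countable_singleton _)
  obtain ⟨b2, hb2, hb2'⟩ := step {b0, b1} (Set.toFinite _).countable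
  have hne01 : b0 ≠ b1 := fun h => hb1' (by simp [h])
  have hne02 : b0 ≠ b2 := fun h => hb2' (by simp [h])
  have hne12 : b1 ≠ b2 := fun h => hb2' (by simp [h])
  let X : Type := {b : Om1 // b ∈ T ∧ b ∉ ({b0, b1, b2} : Set Om1)}
  have hX : ℵ₀ < #X := by
    rw [← not_le]
    intro hcon'
    have hcon : {b : Om1 | b ∈ T ∧ b ∉ ({b0, b1, b2} : Set Om1)}.Countable :=
      Cardinal.le_aleph0_iff_set_countable.1 hcon'
    obtain ⟨b, hb, hb'⟩ := step ({b | b ∈ T ∧ b ∉ ({b0, b1, b2} : Set Om1)} ∪ {b0, b1, b2})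
      (Set.Countable.union hcon (Set.toFinite _).countable)
    apply hb'
    by_cases h : b ∈ ({b0, b1, b2} : Set Om1)
    · exact Or.inr h
    · exact Or.inl ⟨hb, h⟩
  let B : X → Fin 4 → Om1 := fun b => ![b0, b1, b2, b.1]
  have hBT : ∀ b k, B b k ∈ T := by
    intro b k
    fin_cases k
    · exact hb0
    · exact hb1
    · exact hb2
    · exact b.2.1
  have hBi : ∀ b, Function.Injective (B b) := by
    intro b k l hkl
    have hb3 := b.2.2
    simp only [mem_insert_iff, mem_singleton_iff, not_or] at hb3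
    obtain ⟨h30, h31, h32⟩ := hb3
    fin_cases k <;> fin_cases l <;> simp [B] at hkl ⊢ <;>
      first
      | exact hne01 hkl | exact hne01 hkl.symm | exact hne02 hkl | exact hne02 hkl.symm
      | exact hne12 hkl | exact hne12 hkl.symm | exact h30 hkl | exact h30 hkl.symm
      | exact h31 hkl | exact h31 hkl.symm | exact h32 hkl | exact h32 hkl.symm
  have hex : ∀ b : X, ∃ (t : Fn J K3) (y : H3), (∀ k, t ≤ ⟨D (B b k), u (B b k)⟩) ∧
      t ∈ meets (F (∑ k, Finsupp.single (B b k) 1) y) := by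
    intro b
    obtain ⟨r, hr⟩ := Fn.exists_lb_family (fun k : Fin 4 => (⟨D (B b k), u (B b k)⟩ : Fn J K3)) (by
      intro k l i hi hi'
      simp only at hi hi' ⊢
      by_cases hkl : k = l
      · rw [hkl]
      · exact (hdis _ (hBT b k) _ (hBT b l) (fun h => hkl (hBi b h)) i hi hi').2)
    obtain ⟨t, ht, y, hy⟩ := IsFun.total (down_IsFun F q0 hfun r ((hr 0).trans (hu _)))
      (∑ k, Finsupp.single (B b k) 1)
    exact ⟨t, y, fun k => ht.trans (hr k), hy⟩
  choose t y ht hty using hex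
  have hy : ∀ b, ∀ α ∈ (y b - y0).support, α ∈ (T0 : Set Om1) := fun b =>
    key (B b) (hBT b) (hBi b) (ht b) (hty b)
  let Z : Type := {h : H3 // ∀ α ∈ h.support, α ∈ (T0 : Set Om1)}
  have hZ : Countable Z := by
    have hfin : Finite (T0 → ZMod 3) := inferInstance
    refine Function.Injective.countable (f := fun (h : Z) (α : T0) => h.1 α.1) ?_
    intro h h' hhh
    apply Subtype.ext
    ext α
    by_cases hα : α ∈ T0
    · exact congrFun hhh ⟨α, hα⟩
    · have h3 : h.1 α = 0 := by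
        by_contra h4
        exact hα (h.2 α (Finsupp.mem_support_iff.2 h4))
      have h4 : h'.1 α = 0 := by
        by_contra h4
        exact hα (h'.2 α (Finsupp.mem_support_iff.2 h4))
      rw [h3, h4]
  obtain ⟨b, b', hne, hz, s, hs, hs'⟩ := (Fn.pccc (J := J) (K := K3)).exists_compat_same
    (X := X) (Z := Z) (by
      refine lt_of_le_of_lt ?_ hX
      refine (mul_le_mul' (Cardinal.mk_le_aleph0) le_rfl).trans ?_
      rw [Cardinal.aleph0_mul_aleph0]) t (fun b => ⟨y b - y0, hy b⟩)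
  have hyy : y b = y b' := by
    have := congrArg Subtype.val hz
    simpa using this
  have hsq : s ≤ q0 := hs.trans ((ht b 0).trans (hu _))
  have h3 := IsInj.eq (down_IsInj F q0 hinj s hsq) (down_meets _ _ (hty b) s hs)
    (by rw [hyy]; exact down_meets _ _ (hty b') s hs')
  simp only [Fin.sum_univ_four, B, Matrix.cons_val_zero, Matrix.cons_val_one, Matrix.cons_val] at h3
  have h4 : (Finsupp.single b.1 1 : G2) = Finsupp.single b'.1 1 := add_left_cancel h3
  apply hne
  apply Subtype.ext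
  exact (Finsupp.single_left_inj (by decide : (1 : ZMod 2) ≠ 0)).1 h4

end Pool.Agent.W631.CG
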