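import Pool.Agent.W631.CG.Core2

/-!
# The spaces are not homeomorphic after adding Cohen reals
-/

set_option autoImplicit false

namespace Pool.Agent.W631.CG

open Cardinal Set Pool.Agent.Helper669.Forcing Pool.Agent.W684.FM

section General

variable {P : Type} [Preorder P]

theorem of_fimp {φ : Set P} {N : Set P} {p : P} (h : p ∈ fimp φ (meets N)) (hφ : Down φ)
    {q : P} (hq : q ≤ p) (hqφ : q ∈ φ) : q ∈ meets N := by
  apply meets_of_dense
  intro r hr
  exact mem_fimp.1 h r (hr.trans hq) (hφ _ hqφ r hr)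

theorem fimp_of {φ ψ : Set P} {p : P} (h : ∀ q ≤ p, q ∈ φ → q ∈ ψ) : p ∈ fimp φ ψ :=
  mem_fimp.2 fun q hq hφ => ⟨q, le_rfl, h q hq hφ⟩

variable {K : Type} [AddCommGroup K]

theorem IsSubgpN.sub {U : K → Set P} {p : P} (h : p ∈ IsSubgpN U) {q : P} (hq : q ≤ p) {x y : K}
    (hx : q ∈ meets (U x)) (hy : q ∈ meets (U y)) : q ∈ meets (U (x - y)) :=
  of_fimp (h.2 x y) (down_fand (down_meets _) (down_meets _)) hq ⟨hx, hy⟩

theorem IsSubgpN.add {U : K → Set P} {p : P} (h : p ∈ IsSubgpN U) {q : P} (hq : q ≤ p) {x y : K}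
    (hx : q ∈ meets (U x)) (hy : q ∈ meets (U y)) : q ∈ meets (U (x + y)) := by
  have h0 : q ∈ meets (U 0) := down_meets _ _ h.1 q hq
  have h1 := IsSubgpN.sub h hq hx (IsSubgpN.sub h hq h0 hy)
  rwa [zero_sub, sub_neg_eq_add] at h1

end General

section

variable {J : Type} {j : Om1 → J} (hj : Function.Injective j)

open Classical in
/-- every condition can be extended so that its domain contains a given finite set -/
theorem exists_dom (p : Fn J K3) (E : Finset J) (v : J → K3) :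
    ∃ q ≤ p, (E ⊆ q.dom ∧ q.dom ⊆ p.dom ∪ E) ∧ ∀ i ∈ E, i ∉ p.dom → q.val i = v i := by
  refine ⟨⟨p.dom ∪ E, fun i => if i ∈ p.dom then p.val i else v i⟩,
    ⟨Finset.subset_union_left, fun i hi => by simp [hi]⟩,
    ⟨Finset.subset_union_right, subset_rfl⟩, fun i _ hi => by simp [hi]⟩

open Classical in
theorem exists_Sn (h : H3) (p : Fn J K3) : ∃ q ≤ p, ∃ k, q ∈ Sn j h k := by
  obtain ⟨q, hq, ⟨h1, _⟩, _⟩ := exists_dom p (h.support.image j) (fun _ => 0)
  exact ⟨q, hq, _, fun α hα => h1 (Finset.mem_image_of_mem _ hα), rfl⟩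

theorem Sn_sub {h h' : H3} {k k' : K3} {p : Fn J K3} (hp : p ∈ Sn j h k) (hp' : p ∈ Sn j h' k') :
    p ∈ Sn j (h - h') (k - k') := by
  classical
  refine ⟨fun α hα => ?_, ?_⟩
  · rcases Finset.mem_union.1 (Finsupp.support_sub hα) with h1 | h1
    · exact hp.1 α h1
    · exact hp'.1 α h1
  · rw [ev_sub, hp.2, hp'.2]

include hj in
theorem isSubgpN_Vn (p : Fn J K3) : p ∈ IsSubgpN (Vn j) := by
  refine ⟨meets_of_mem ⟨by simp, by simp [ev]⟩, fun x y => fimp_of fun q _ h => ?_⟩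
  have h1 := Sn_sub (mem_of_meets_Sn hj h.1) (mem_of_meets_Sn hj h.2)
  rw [sub_zero] at h1
  exact meets_of_mem h1

theorem ctblIndexN_Vn (p : Fn J K3) : p ∈ CtblIndexN (Vn j) := by
  obtain ⟨enc, henc⟩ := exists_injective_nat K3
  let c : H3 → ℕ → Set (Fn J K3) := fun x n => {p | ∃ k, enc k = n ∧ p ∈ Sn j x k}
  have hc : ∀ x n, Down (c x n) := by
    rintro x n p ⟨k, hk, hp⟩ q hq
    exact ⟨k, hk, down_Sn j x k p hp q hq⟩
  refine mem_fex_of_mem c ?_ ⟨⟨fun x => mem_fex.2 fun q _ => ?_, fun x n n' =>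
    fimp_of fun q _ h => ?_⟩, fun x y n => fimp_of fun q _ h => ?_⟩
  · exact down_fand (down_IsFun _) (down_fall fun _ => down_fall fun _ => down_fall fun _ =>
      down_fimp _ _)
  · obtain ⟨r, hr, k, hk⟩ := exists_Sn (j := j) x q
    exact ⟨r, hr, enc k, meets_of_mem ⟨k, rfl, hk⟩⟩
  · obtain ⟨r, hr, k, hk, hk2⟩ := exists_of_meets (hc x n) h.1
    obtain ⟨s, hs, k', hk', hk2'⟩ := exists_of_meets (hc x n') (down_meets _ _ h.2 r hr)
    show n = n'
    rw [← hk, ← hk', Sn_unique hk2 hk2' hs]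
  · apply meets_of_dense
    intro q' hq'
    obtain ⟨r, hr, k, hk, hk2⟩ := exists_of_meets (hc x n) (down_meets _ _ h.1 q' hq')
    obtain ⟨s, hs, k', hk', hk2'⟩ := exists_of_meets (hc y n)
      (down_meets _ _ h.2 r (hr.trans hq'))
    have hkk : k = k' := henc (hk.trans hk'.symm)
    have h1 := Sn_sub (down_Sn j x k r hk2 s hs) hk2'
    rw [hkk, sub_self] at h1
    exact ⟨s, hs.trans hr, meets_of_mem h1⟩

include hj in
theorem rhoNhdN_Vn (p : Fn J K3) : p ∈ RhoNhdN (Vn j) := by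
  refine mem_fex_of_mem (Vn j) ?_ ⟨isSubgpN_Vn hj p, ctblIndexN_Vn p, fun x =>
    fimp_of fun q _ h => h⟩
  exact down_fand (down_fand (down_meets _) (down_fall fun _ => down_fall fun _ =>
    down_fimp _ _)) (down_fand (down_fex _) (down_fall fun _ => down_fimp _ _))

include hj in
theorem ctblCoverN_Vn (p : Fn J K3) : p ∈ CtblCoverN (Vn j) := by
  classical
  obtain ⟨b⟩ : Nonempty (ℕ ↪ Om1) := by
    have h1 : #Om1 = ℵ₁ := Cardinal.mk_ord_toType _
    have h0 : ℵ₀ ≤ #Om1 := by rw [h1]; exact Cardinal.aleph0_le_aleph 1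
    have : Infinite Om1 := Cardinal.infinite_iff.2 h0
    exact ⟨Infinite.natEmbedding Om1⟩
  let a : ℕ → H3 → Set (Fn J K3) := fun n y => {_p | y = Finsupp.single (b n) 1}
  refine mem_fex_of_mem a ?_ ⟨⟨fun n => mem_fex.2 fun q _ =>
    ⟨q, le_rfl, Finsupp.single (b n) 1, meets_of_mem rfl⟩, fun n y y' => fimp_of fun q _ h => ?_⟩,
    fun x => mem_fex.2 fun q _ => ?_⟩
  · exact down_fand (down_IsFun _) (down_fall fun _ => down_fex _)
  · obtain ⟨r, hr, s, hs, -⟩ := h.1 q le_rfl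
    obtain ⟨r', hr', s', hs', -⟩ := h.2 q le_rfl
    show y = y'
    exact Eq.trans hs (Eq.symm hs')
  · obtain ⟨q1, hq1, k, hk⟩ := exists_Sn (j := j) x q
    obtain ⟨n, hn⟩ : ∃ n, j (b n) ∉ q1.dom := by
      by_contra hcon
      push Not at hcon
      have h1 : Set.range (fun n => j (b n)) ⊆ (q1.dom : Set J) := by
        rintro _ ⟨n, rfl⟩
        exact hcon n
      exact Set.infinite_range_of_injective (hj.comp b.injective)
        ((Finset.finite_toSet _).subset h1)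
    obtain ⟨q2, hq2, ⟨h2, _⟩, h3⟩ := exists_dom q1 {j (b n)} (fun _ => k)
    have h4 : q2 ∈ Sn j (Finsupp.single (b n) 1) k := by
      refine ⟨fun α hα => ?_, ?_⟩
      · have := Finsupp.support_single_subset hα
        rw [Finset.mem_singleton] at this
        subst this
        exact h2 (Finset.mem_singleton_self _)
      · simp only [ev]
        rw [Finsupp.sum_single_index (by simp)]
        rw [h3 _ (Finset.mem_singleton_self _) hn, one_smul]
    have h5 := Sn_sub (down_Sn j x k q1 hk q2 hq2) h4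
    rw [sub_self] at h5
    refine ⟨q2, hq2.trans hq1, n, mem_fex_of_mem (Finsupp.single (b n) 1)
      (down_fand (down_meets _) (down_meets _)) ⟨meets_of_mem rfl, meets_of_mem h5⟩⟩

include hj in
theorem frakNhdN_Vn (p : Fn J K3) : p ∈ FrakNhdN (Vn j) := by
  have h0 := isSubgpN_Vn hj p
  refine mem_fex_of_mem (fun _ => Vn j) ?_ ⟨fun x => fimp_of fun q _ h => h, fun n =>
    ⟨h0.1, fun x => fimp_of fun q hq h => ?_, fun x y => fimp_of fun q hq h => ?_,
      ctblCoverN_Vn hj p⟩⟩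
  · exact down_fand (down_fall fun _ => down_fimp _ _) (down_fall fun _ =>
      down_fand (down_meets _) (down_fand (down_fall fun _ => down_fimp _ _)
        (down_fand (down_fall fun _ => down_fall fun _ => down_fimp _ _) (down_fex _))))
  · have h1 := IsSubgpN.sub h0 hq (down_meets _ _ h0.1 q hq) h
    rwa [zero_sub] at h1
  · exact IsSubgpN.add h0 hq h.1 h.2

end

variable {J : Type} (hJ : ℵ₁ < #J)

include hJ in
theorem not_rho (p : Fn J K3) : p ∈ fnot (RhoHomeoN (Fn J K3)) := by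
  intro q _ hq
  obtain ⟨q1, _, F, hfun, hinj, _, hcont, _⟩ := mem_fex.1 hq q le_rfl
  obtain ⟨j, hj, hcore⟩ := core hJ F
  obtain ⟨q2, hq2, y0, hy0⟩ := IsFun.total hfun 0
  obtain ⟨q3, hq3, h3⟩ := mem_fimp.1 (hcont 0 y0) q2 hq2 hy0
  obtain ⟨q4, hq4, h4⟩ := mem_fimp.1 (h3 (Vn j)) q3 le_rfl (rhoNhdN_Vn hj q3)
  obtain ⟨q5, hq5, U, hU, hUV⟩ := mem_fex.1 h4 q4 le_rfl
  obtain ⟨q6, hq6, U', hU', hc, hU'U⟩ := mem_fex.1 hU q5 le_rfl
  obtain ⟨q7, hq7, c, hcf, hcU⟩ := mem_fex.1 hc q6 le_rfl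
  have h71 : q7 ≤ q1 := hq7.trans (hq6.trans (hq5.trans (hq4.trans (hq3.trans hq2))))
  refine hcore q7 (fun a n => meets (c a n)) y0 (down_IsFun F _ hfun _ h71)
    (down_IsInj F _ hinj _ h71) (fun a n => down_meets _) (fun a r hr =>
      IsFun.total (down_IsFun c _ hcf r hr) a) ?_
  intro a b a' b' n n' y r hr ha hb ha' hb' hy
  have k1 : r ∈ meets (U' (a - b)) :=
    of_fimp (hcU a b n) (down_fand (down_meets _) (down_meets _)) hr ⟨ha, hb⟩
  have k2 : r ∈ meets (U' (a' - b')) :=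
    of_fimp (hcU a' b' n') (down_fand (down_meets _) (down_meets _)) hr ⟨ha', hb'⟩
  have k3 : r ∈ meets (U' ((a - b) + (a' - b'))) := IsSubgpN.add hU' (hr.trans hq7) k1 k2
  have k4 : r ∈ meets (U ((a - b) + (a' - b'))) :=
    of_fimp (hU'U _) (down_meets _) (hr.trans hq7) k3
  exact of_fimp (hUV ((a - b) + (a' - b')) y) (down_fand (down_meets _) (down_meets _))
    (hr.trans (hq7.trans hq6)) ⟨hy, by rwa [sub_zero]⟩

include hJ in
theorem not_frak (p : Fn J K3) : p ∈ fnot (FrakHomeoN (Fn J K3)) := by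
  intro q _ hq
  obtain ⟨q1, _, F, hfun, hinj, _, hcont, _⟩ := mem_fex.1 hq q le_rfl
  obtain ⟨j, hj, hcore⟩ := core hJ F
  obtain ⟨q2, hq2, y0, hy0⟩ := IsFun.total hfun 0
  obtain ⟨q3, hq3, h3⟩ := mem_fimp.1 (hcont 0 y0) q2 hq2 hy0
  obtain ⟨q4, hq4, h4⟩ := mem_fimp.1 (h3 (Vn j)) q3 le_rfl (frakNhdN_Vn hj q3)
  obtain ⟨q5, hq5, U, hU, hUV⟩ := mem_fex.1 h4 q4 le_rfl
  obtain ⟨q6, hq6, W, hW0, hW⟩ := mem_fex.1 hU q5 le_rfl
  obtain ⟨q7, hq7, g, hgf, hg⟩ := mem_fex.1 (hW 2).2.2.2 q6 le_rfl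
  have h71 : q7 ≤ q1 := hq7.trans (hq6.trans (hq5.trans (hq4.trans (hq3.trans hq2))))
  refine hcore q7 (fun a n => {r | ∃ y, r ∈ meets (g n y) ∧ r ∈ meets (W 2 (a - y))}) y0
    (down_IsFun F _ hfun _ h71) (down_IsInj F _ hinj _ h71) ?_ ?_ ?_
  · rintro a n r ⟨y, h5, h6⟩ s hs
    exact ⟨y, down_meets _ _ h5 s hs, down_meets _ _ h6 s hs⟩
  · intro a r hr
    obtain ⟨r1, hr1, n, hn⟩ := mem_fex.1 (hg a) r hr
    obtain ⟨r2, hr2, y, hy⟩ := mem_fex.1 hn r1 le_rfl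
    exact ⟨r2, hr2.trans hr1, n, y, hy⟩
  · have key : ∀ a b n, ∀ r ≤ q7, (∃ y, r ∈ meets (g n y) ∧ r ∈ meets (W 2 (a - y))) →
        (∃ y, r ∈ meets (g n y) ∧ r ∈ meets (W 2 (b - y))) → r ∈ meets (W 1 (a - b)) := by
      rintro a b n r hr ⟨y, h5, h6⟩ ⟨y', h7, h8⟩
      have hyy : y = y' := IsFun.unique (down_IsFun g _ hgf r hr) h5 h7
      subst hyy
      have h9 : r ∈ meets (W 2 (-(b - y))) :=
        of_fimp ((hW 2).2.1 (b - y)) (down_meets _) (hr.trans hq7) h8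
      have h10 : r ∈ meets (W 1 ((a - y) + -(b - y))) :=
        of_fimp ((hW 1).2.2.1 (a - y) (-(b - y))) (down_fand (down_meets _) (down_meets _))
          (hr.trans hq7) ⟨h6, h9⟩
      have h11 : (a - y) + -(b - y) = a - b := by abel
      rwa [h11] at h10
    intro a b a' b' n n' y r hr ha hb ha' hb' hy
    have k1 := key a b n r hr ha hb
    have k2 := key a' b' n' r hr ha' hb'
    have k3 : r ∈ meets (W 0 ((a - b) + (a' - b'))) :=
      of_fimp ((hW 0).2.2.1 _ _) (down_fand (down_meets _) (down_meets _)) (hr.trans hq7) ⟨k1, k2⟩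
    have k4 : r ∈ meets (U ((a - b) + (a' - b'))) :=
      of_fimp (hW0 _) (down_meets _) (hr.trans hq7) k3
    exact of_fimp (hUV ((a - b) + (a' - b')) y) (down_fand (down_meets _) (down_meets _))
      (hr.trans (hq7.trans hq6)) ⟨hy, by rwa [sub_zero]⟩

end Pool.Agent.W631.CG
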